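import Pool.Agent.NOD.S2.Stm

/-!
# Project NOD, section S2: pieces CH2 and tools for CH2H (helper70)
-/

set_option autoImplicit false

namespace Pool.Agent.NOD.S2

open MvPolynomial Pool.Agent.NOD

namespace C70

lemma inj {x y : A} (h : algebraMap A K x = algebraMap A K y) : x = y :=
  IsFractionRing.injective A K h

lemma Loc_up {s : A} {x : K} {n m : ℕ} {p : A} (h : algebraMap A K s ^ n * x = algebraMap A K p)
    (hnm : n ≤ m) : ∃ p' : A, algebraMap A K s ^ m * x = algebraMap A K p' := by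
  obtain ⟨k, rfl⟩ := Nat.exists_eq_add_of_le hnm
  refine ⟨s ^ k * p, ?_⟩
  rw [map_mul, map_pow, ← h]
  ring

/-- The core of the Čech computation. -/
lemma core (hp : S_POW) {F : A} {u : Fin 3 → A} (hR : PReg ![F, u 0, u 1, u 2]) (j n : ℕ)
    {p q r w : A} (h : u 2 ^ n * p + u 0 ^ n * q + u 1 ^ n * r = F ^ j * w) :
    ∃ a b e c1 c2 c3 : A, p = a * u 0 ^ n + b * u 1 ^ n + c1 * F ^ j ∧
      q + a * u 2 ^ n = e * u 1 ^ n + c2 * F ^ j ∧
      r + b * u 2 ^ n + e * u 0 ^ n = c3 * F ^ j := by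
  have hR' := hp 4 _ ![j, n, n, n] hR
  have e0 : (fun i => (![F, u 0, u 1, u 2] : Fin 4 → A) i ^ (![j, n, n, n] : Fin 4 → ℕ) i) =
      ![F ^ j, u 0 ^ n, u 1 ^ n, u 2 ^ n] := by
    funext i
    fin_cases i <;> rfl
  rw [e0] at hR'
  have h3 := hR' {0, 1, 2} 3 (by decide) p
  have h2 := hR' {0, 2} 1 (by decide)
  have h1 := hR' {0} 2 (by decide)
  have s3 : ((![F ^ j, u 0 ^ n, u 1 ^ n, u 2 ^ n] : Fin 4 → A) '' (({0, 1, 2} : Finset (Fin 4)) : Set (Fin 4))) =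
      {F ^ j, u 0 ^ n, u 1 ^ n} := by
    simp [Set.image_insert_eq]
  have s2 : ((![F ^ j, u 0 ^ n, u 1 ^ n, u 2 ^ n] : Fin 4 → A) '' (({0, 2} : Finset (Fin 4)) : Set (Fin 4))) =
      {F ^ j, u 1 ^ n} := by
    simp [Set.image_insert_eq]
  have s1 : ((![F ^ j, u 0 ^ n, u 1 ^ n, u 2 ^ n] : Fin 4 → A) '' (({0} : Finset (Fin 4)) : Set (Fin 4))) =
      {F ^ j} := by
    simp
  rw [s3] at h3
  rw [s2] at h2
  rw [s1] at h1
  have t3 : (![F ^ j, u 0 ^ n, u 1 ^ n, u 2 ^ n] : Fin 4 → A) 3 = u 2 ^ n := rfl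
  have t2 : (![F ^ j, u 0 ^ n, u 1 ^ n, u 2 ^ n] : Fin 4 → A) 1 = u 0 ^ n := rfl
  have t1 : (![F ^ j, u 0 ^ n, u 1 ^ n, u 2 ^ n] : Fin 4 → A) 2 = u 1 ^ n := rfl
  rw [t3] at h3
  rw [t2] at h2
  rw [t1] at h1
  have m3 : p ∈ Ideal.span {F ^ j, u 0 ^ n, u 1 ^ n} := by
    apply h3
    rw [Ideal.mem_span_insert]
    refine ⟨w, - u 0 ^ n * q - u 1 ^ n * r, ?_, by linear_combination h⟩
    rw [Ideal.mem_span_pair]
    exact ⟨-q, -r, by ring⟩
  rw [Ideal.mem_span_insert] at m3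
  obtain ⟨c1, z, hz, hz'⟩ := m3
  rw [Ideal.mem_span_pair] at hz
  obtain ⟨a, b, hab⟩ := hz
  have m2 : q + a * u 2 ^ n ∈ Ideal.span {F ^ j, u 1 ^ n} := by
    apply h2
    rw [Ideal.mem_span_pair]
    refine ⟨w - u 2 ^ n * c1, - (r + b * u 2 ^ n), ?_⟩
    rw [← hab] at hz'
    rw [hz'] at h
    linear_combination - h
  rw [Ideal.mem_span_pair] at m2
  obtain ⟨c2, e, hce⟩ := m2
  have m1 : r + b * u 2 ^ n + e * u 0 ^ n ∈ Ideal.span {F ^ j} := by
    apply h1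
    rw [Ideal.mem_span_singleton']
    refine ⟨w - u 2 ^ n * c1 - u 0 ^ n * c2, ?_⟩
    rw [← hab] at hz'
    rw [hz'] at h
    linear_combination - h - u 0 ^ n * hce
  rw [Ideal.mem_span_singleton'] at m1
  obtain ⟨c3, hc3⟩ := m1
  refine ⟨a, b, e, c1, c2, c3, ?_, ?_, ?_⟩
  · rw [hz', ← hab]; ring
  · rw [← hce]; ring
  · rw [← hc3]

/-- From the polynomial identities to the fractions. -/
lemma frac {F : A} {u : Fin 3 → A} (hu : ∀ i, u i ≠ 0) (j n : ℕ)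
    {p q r a b e c1 c2 c3 : A} {y01 y12 y20 : K}
    (h01 : algebraMap A K (u 0 * u 1) ^ n * y01 = algebraMap A K p)
    (h12 : algebraMap A K (u 1 * u 2) ^ n * y12 = algebraMap A K q)
    (h20 : algebraMap A K (u 2 * u 0) ^ n * y20 = algebraMap A K r)
    (e1 : p = a * u 0 ^ n + b * u 1 ^ n + c1 * F ^ j)
    (e2 : q + a * u 2 ^ n = e * u 1 ^ n + c2 * F ^ j)
    (e3 : r + b * u 2 ^ n + e * u 0 ^ n = c3 * F ^ j) :
    ∃ z : Fin 3 → K, algebraMap A K (u 0) ^ n * z 0 = algebraMap A K b ∧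
      algebraMap A K (u 1) ^ n * z 1 = algebraMap A K (-a) ∧
      algebraMap A K (u 2) ^ n * z 2 = algebraMap A K (-e) ∧
      y01 - (z 0 - z 1) ∈ FLoc (F ^ j) (u 0 * u 1) ∧
      y12 - (z 1 - z 2) ∈ FLoc (F ^ j) (u 1 * u 2) ∧
      y20 - (z 2 - z 0) ∈ FLoc (F ^ j) (u 2 * u 0) := by
  have hne : ∀ i, algebraMap A K (u i) ≠ 0 := fun i h => hu i (inj (by rw [h, map_zero]))
  set U : Fin 3 → K := fun i => algebraMap A K (u i) with hU
  have k1 := congrArg (algebraMap A K) e1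
  have k2 := congrArg (algebraMap A K) e2
  have k3 := congrArg (algebraMap A K) e3
  simp only [map_add, map_mul, map_pow] at k1 k2 k3 h01 h12 h20
  have n0 : algebraMap A K (u 0) ^ n ≠ 0 := pow_ne_zero _ (hne 0)
  have n1 : algebraMap A K (u 1) ^ n ≠ 0 := pow_ne_zero _ (hne 1)
  have n2 : algebraMap A K (u 2) ^ n ≠ 0 := pow_ne_zero _ (hne 2)
  refine ⟨![algebraMap A K b / algebraMap A K (u 0) ^ n, - algebraMap A K a / algebraMap A K (u 1) ^ n,
    - algebraMap A K e / algebraMap A K (u 2) ^ n], ?_, ?_, ?_, ?_, ?_, ?_⟩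
  · show algebraMap A K (u 0) ^ n * (algebraMap A K b / algebraMap A K (u 0) ^ n) = _
    field_simp
  · show algebraMap A K (u 1) ^ n * (- algebraMap A K a / algebraMap A K (u 1) ^ n) = _
    rw [map_neg]
    field_simp
  · show algebraMap A K (u 2) ^ n * (- algebraMap A K e / algebraMap A K (u 2) ^ n) = _
    rw [map_neg]
    field_simp
  · show y01 - (algebraMap A K b / algebraMap A K (u 0) ^ n -
      - algebraMap A K a / algebraMap A K (u 1) ^ n) ∈ _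
    refine ⟨algebraMap A K c1 / (algebraMap A K (u 0 * u 1)) ^ n, ⟨n, c1, ?_⟩, ?_⟩
    · rw [map_mul, mul_pow]
      field_simp
    · rw [map_mul, map_pow, mul_pow]
      have : y01 = algebraMap A K p / (algebraMap A K (u 0) ^ n * algebraMap A K (u 1) ^ n) := by
        rw [eq_div_iff (mul_ne_zero n0 n1), ← h01]
        ring
      rw [this, k1]
      field_simp
      ring
  · show y12 - (- algebraMap A K a / algebraMap A K (u 1) ^ n -
      - algebraMap A K e / algebraMap A K (u 2) ^ n) ∈ _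
    refine ⟨algebraMap A K c2 / (algebraMap A K (u 1 * u 2)) ^ n, ⟨n, c2, ?_⟩, ?_⟩
    · rw [map_mul, mul_pow]
      field_simp
    · rw [map_mul, map_pow, mul_pow]
      have : y12 = algebraMap A K q / (algebraMap A K (u 1) ^ n * algebraMap A K (u 2) ^ n) := by
        rw [eq_div_iff (mul_ne_zero n1 n2), ← h12]
        ring
      rw [this, eq_sub_of_add_eq k2]
      field_simp
      ring
  · show y20 - (- algebraMap A K e / algebraMap A K (u 2) ^ n -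
      algebraMap A K b / algebraMap A K (u 0) ^ n) ∈ _
    refine ⟨algebraMap A K c3 / (algebraMap A K (u 2 * u 0)) ^ n, ⟨n, c3, ?_⟩, ?_⟩
    · rw [map_mul, mul_pow]
      field_simp
    · rw [map_mul, map_pow, mul_pow]
      have : y20 = algebraMap A K r / (algebraMap A K (u 2) ^ n * algebraMap A K (u 0) ^ n) := by
        rw [eq_div_iff (mul_ne_zero n2 n0), ← h20]
        ring
      rw [this, eq_sub_of_add_eq (eq_sub_of_add_eq k3)]
      field_simp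
      ring

/-- Common denominators. -/
lemma common {F : A} {u : Fin 3 → A} {j : ℕ} {y01 y12 y20 : K} (h01 : y01 ∈ Loc (u 0 * u 1))
    (h12 : y12 ∈ Loc (u 1 * u 2)) (h20 : y20 ∈ Loc (u 2 * u 0))
    (hs : y01 + y12 + y20 ∈ FLoc (F ^ j) (u 0 * u 1 * u 2)) :
    ∃ (n : ℕ) (p q r w : A), algebraMap A K (u 0 * u 1) ^ n * y01 = algebraMap A K p ∧
      algebraMap A K (u 1 * u 2) ^ n * y12 = algebraMap A K q ∧
      algebraMap A K (u 2 * u 0) ^ n * y20 = algebraMap A K r ∧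
      u 2 ^ n * p + u 0 ^ n * q + u 1 ^ n * r = F ^ j * w := by
  obtain ⟨m1, p1, e1⟩ := h01
  obtain ⟨m2, p2, e2⟩ := h12
  obtain ⟨m3, p3, e3⟩ := h20
  obtain ⟨w, ⟨m4, p4, e4⟩, hw⟩ := hs
  obtain ⟨p, hp⟩ := Loc_up e1 (show m1 ≤ m1 + m2 + m3 + m4 by omega)
  obtain ⟨q, hq⟩ := Loc_up e2 (show m2 ≤ m1 + m2 + m3 + m4 by omega)
  obtain ⟨r, hr⟩ := Loc_up e3 (show m3 ≤ m1 + m2 + m3 + m4 by omega)
  obtain ⟨w', hw'⟩ := Loc_up e4 (show m4 ≤ m1 + m2 + m3 + m4 by omega)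
  refine ⟨_, p, q, r, w', hp, hq, hr, ?_⟩
  set n := m1 + m2 + m3 + m4
  apply inj
  simp only [map_add, map_mul, map_pow] at *
  rw [← hp, ← hq, ← hr, ← hw']
  linear_combination (algebraMap A K (u 0) * algebraMap A K (u 1) * algebraMap A K (u 2)) ^ n * hw

end C70

theorem t_CH2 (hp : S_POW) : S_CH2 := by
  intro F u j hF hu hR y01 h01 y12 h12 y20 h20 hs
  obtain ⟨n, p, q, r, w, k1, k2, k3, k4⟩ := C70.common h01 h12 h20 hs
  obtain ⟨a, b, e, c1, c2, c3, e1, e2, e3⟩ := C70.core hp hR j n k4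
  obtain ⟨z, z0, z1, z2, f1, f2, f3⟩ := C70.frac hu j n k1 k2 k3 e1 e2 e3
  refine ⟨z, fun i => ?_, f1, f2, f3⟩
  fin_cases i
  · exact ⟨n, _, z0⟩
  · exact ⟨n, _, z1⟩
  · exact ⟨n, _, z2⟩

end Pool.Agent.NOD.S2
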