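import Pool.Agent.NOD.S2.CH2

/-!
# Project NOD, section S2: piece CH2H (helper70)
-/

set_option autoImplicit false

namespace Pool.Agent.NOD.S2

open MvPolynomial Pool.Agent.NOD

namespace C70

attribute [local instance] MvPolynomial.gradedAlgebra MvPolynomial.decomposition

/-- Homogeneous components with integral index. -/
noncomputable def cz (s : ℤ) (p : A) : A := if 0 ≤ s then homogeneousComponent s.toNat p else 0

lemma cz_add (s : ℤ) (p q : A) : cz s (p + q) = cz s p + cz s q := by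
  unfold cz
  split_ifs
  · rw [map_add]
  · rw [add_zero]

lemma hc_mul {f : A} {m : ℕ} (hf : f.IsHomogeneous m) (a : A) (k : ℕ) :
    homogeneousComponent (m + k) (f * a) = f * homogeneousComponent k a := by
  have h := DirectSum.coe_decompose_mul_add_of_left_mem (homogeneousSubmodule (Fin 5) ℂ)
    (i := m) (j := k) (a := f) (b := a) ((mem_homogeneousSubmodule m f).2 hf)
  have e1 := decomposition.decompose'_apply (σ := Fin 5) (R := ℂ) (f * a) (m + k)
  have e2 := decomposition.decompose'_apply (σ := Fin 5) (R := ℂ) a k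
  rw [← e1, ← e2]
  exact h

lemma hc_mul_lt {f : A} {m : ℕ} (hf : f.IsHomogeneous m) (a : A) {k : ℕ} (hk : k < m) :
    homogeneousComponent k (f * a) = 0 := by
  have h := DirectSum.coe_decompose_mul_of_left_mem_of_not_le (homogeneousSubmodule (Fin 5) ℂ)
    (i := m) (n := k) (a := f) (b := a) ((mem_homogeneousSubmodule m f).2 hf) (not_le.2 hk)
  have e1 := decomposition.decompose'_apply (σ := Fin 5) (R := ℂ) (f * a) k
  rw [← e1]
  exact h

lemma cz_mul {f : A} {m : ℕ} (hf : f.IsHomogeneous m) (a : A) (s : ℤ) :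
    cz s (f * a) = f * cz (s - m) a := by
  unfold cz
  by_cases h0 : 0 ≤ s
  · rw [if_pos h0]
    by_cases h1 : 0 ≤ s - m
    · rw [if_pos h1]
      have : s.toNat = m + (s - m).toNat := by omega
      rw [this, hc_mul hf]
    · rw [if_neg h1, mul_zero]
      exact hc_mul_lt hf a (by omega)
  · rw [if_neg h0, if_neg (by omega), mul_zero]

lemma cz_mul' {f : A} {m : ℕ} (hf : f.IsHomogeneous m) (a : A) (s : ℤ) :
    cz s (a * f) = cz (s - m) a * f := by
  rw [mul_comm, cz_mul hf, mul_comm]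

lemma cz_self {p : A} {m : ℕ} (hp : p.IsHomogeneous m) : cz m p = p := by
  unfold cz
  rw [if_pos (by omega), Int.toNat_natCast]
  rw [homogeneousComponent_of_mem hp, if_pos rfl]

/-- A polynomial which comes from a homogeneous fraction is homogeneous. -/
lemma cz_of_HomK {s p : A} {x : K} {δ n : ℕ} {t : ℤ} (hs : s.IsHomogeneous δ)
    (hx : HomK t x) (h : algebraMap A K s ^ n * x = algebraMap A K p) :
    cz (t + n * δ) p = p := by
  obtain ⟨n', m', p', q', hp', hq', hq0, ht, hxq⟩ := hx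
  have e : q' * p = s ^ n * p' := by
    apply inj
    rw [map_mul, map_mul, map_pow, ← hxq, ← h]
    ring
  have hsn : (s ^ n * p').IsHomogeneous (δ * n + n') := (hs.pow n).mul hp'
  have h1 := cz_self hsn
  rw [← e, cz_mul hq'] at h1
  have h2 : (((δ * n + n' : ℕ) : ℤ) - m') = t + n * δ := by
    push_cast
    rw [← ht]
    ring
  rw [h2] at h1
  exact mul_left_cancel₀ hq0 h1

lemma HomK_zero (t : ℤ) : HomK t (0 : K) := by
  refine ⟨t.toNat, (-t).toNat, 0, X 0 ^ (-t).toNat, isHomogeneous_zero _ _ _, ?_, ?_, ?_, ?_⟩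
  · have := (isHomogeneous_X ℂ (0 : Fin 5)).pow (-t).toNat
    rwa [one_mul] at this
  · exact pow_ne_zero _ (X_ne_zero 0)
  · omega
  · rw [map_zero, zero_mul]

lemma HomK_of_cz {s b : A} {z : K} {δ n : ℕ} {t : ℤ} (hs : s.IsHomogeneous δ) (hs0 : s ≠ 0)
    (hb : cz (t + n * δ) b = b) (h : algebraMap A K s ^ n * z = algebraMap A K b) : HomK t z := by
  by_cases h0 : 0 ≤ t + n * δ
  · refine ⟨(t + n * δ).toNat, δ * n, b, s ^ n, ?_, hs.pow n, pow_ne_zero _ hs0, ?_, ?_⟩
    · rw [← hb, cz, if_pos h0]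
      exact homogeneousComponent_isHomogeneous _ _
    · push_cast
      rw [Int.toNat_of_nonneg h0]
      ring
    · rw [map_pow, ← h]
      ring
  · have hb0 : b = 0 := by rw [← hb, cz, if_neg h0]
    have : z = 0 := by
      rw [hb0, map_zero] at h
      rcases mul_eq_zero.1 h with h1 | h1
      · exact absurd (inj (by rw [eq_zero_of_pow_eq_zero h1, map_zero])) hs0
      · exact h1
    rw [this]
    exact HomK_zero t

lemma cz_idem (s : ℤ) (p : A) : cz s (cz s p) = cz s p := by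
  by_cases h : 0 ≤ s
  · have h1 : cz s p = homogeneousComponent s.toNat p := by rw [cz, if_pos h]
    have h2 := cz_self (homogeneousComponent_isHomogeneous s.toNat p)
    rw [Int.toNat_of_nonneg h] at h2
    rw [h1]
    exact h2
  · have h1 : ∀ q, cz s q = 0 := fun q => by rw [cz, if_neg h]
    rw [h1, h1]

lemma cz_neg (s : ℤ) (p : A) : cz s (-p) = - cz s p := by
  unfold cz
  split_ifs
  · rw [map_neg]
  · rw [neg_zero]

end C70

open C70 in
theorem t_CH2H (hp : S_POW) : S_CH2H := by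
  intro F u d del j t hF hu hFd hud hR y01 h01 y12 h12 y20 h20 g01 g12 g20 hs
  obtain ⟨n, p, q, r, w, k1, k2, k3, k4⟩ := common h01 h12 h20 hs
  obtain ⟨a, b, e, c1, c2, c3, e1, e2, e3⟩ := core hp hR j n k4
  have hF' : (F ^ j).IsHomogeneous (d * j) := hFd.pow j
  have hu' : ∀ i, (u i ^ n).IsHomogeneous (del i * n) := fun i => (hud i).pow n
  have p1 := cz_of_HomK ((hud 0).mul (hud 1)) g01 k1
  have q1 := cz_of_HomK ((hud 1).mul (hud 2)) g12 k2
  have r1 := cz_of_HomK ((hud 2).mul (hud 0)) g20 k3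
  have e1' := congrArg (cz (t + n * ((del 0 + del 1 : ℕ) : ℤ))) e1
  have e2' := congrArg (cz (t + n * ((del 1 + del 2 : ℕ) : ℤ))) e2
  have e3' := congrArg (cz (t + n * ((del 2 + del 0 : ℕ) : ℤ))) e3
  simp only [cz_add, cz_mul' hF', cz_mul' (hu' _), p1, q1, r1] at e1' e2' e3'
  have d1 : t + n * ((del 0 + del 1 : ℕ) : ℤ) - ((del 0 * n : ℕ) : ℤ) = t + n * (del 1 : ℤ) := by
    push_cast; ring
  have d2 : t + n * ((del 0 + del 1 : ℕ) : ℤ) - ((del 1 * n : ℕ) : ℤ) = t + n * (del 0 : ℤ) := by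
    push_cast; ring
  have d3 : t + n * ((del 1 + del 2 : ℕ) : ℤ) - ((del 2 * n : ℕ) : ℤ) = t + n * (del 1 : ℤ) := by
    push_cast; ring
  have d4 : t + n * ((del 1 + del 2 : ℕ) : ℤ) - ((del 1 * n : ℕ) : ℤ) = t + n * (del 2 : ℤ) := by
    push_cast; ring
  have d5 : t + n * ((del 2 + del 0 : ℕ) : ℤ) - ((del 2 * n : ℕ) : ℤ) = t + n * (del 0 : ℤ) := by
    push_cast; ring
  have d6 : t + n * ((del 2 + del 0 : ℕ) : ℤ) - ((del 0 * n : ℕ) : ℤ) = t + n * (del 2 : ℤ) := by
    push_cast; ring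
  rw [d1, d2] at e1'
  rw [d3, d4] at e2'
  rw [d5, d6] at e3'
  obtain ⟨z, z0, z1, z2, f1, f2, f3⟩ := frac hu j n k1 k2 k3 e1' e2' e3'
  refine ⟨z, fun i => ?_, fun i => ?_, f1, f2, f3⟩
  · fin_cases i
    · exact ⟨n, _, z0⟩
    · exact ⟨n, _, z1⟩
    · exact ⟨n, _, z2⟩
  · fin_cases i
    · exact HomK_of_cz (hud 0) (hu 0) (cz_idem _ _) z0
    · exact HomK_of_cz (hud 1) (hu 1) (by rw [cz_neg, cz_idem]) z1
    · exact HomK_of_cz (hud 2) (hu 2) (by rw [cz_neg, cz_idem]) z2

end Pool.Agent.NOD.S2
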