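import Pool.Agent.NOD.S2.Stm

set_option autoImplicit false
set_option linter.unusedSectionVars false
set_option linter.unusedVariables false

namespace Pool.Agent.NOD.S2

open MvPolynomial Pool.Agent.NOD

namespace CORx

theorem loc_map (s p : A) : algebraMap A K p ∈ Loc s := ⟨0, p, by rw [pow_zero, one_mul]⟩

theorem loc_mul {s : A} {x y : K} (hx : x ∈ Loc s) (hy : y ∈ Loc s) : x * y ∈ Loc s := by
  obtain ⟨n, p, hp⟩ := hx
  obtain ⟨m, q, hq⟩ := hy
  refine ⟨n + m, p * q, ?_⟩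
  rw [map_mul, ← hp, ← hq, pow_add]
  ring

theorem loc_add {s : A} {x y : K} (hx : x ∈ Loc s) (hy : y ∈ Loc s) : x + y ∈ Loc s := by
  obtain ⟨n, p, hp⟩ := hx
  obtain ⟨m, q, hq⟩ := hy
  refine ⟨n + m, s ^ m * p + s ^ n * q, ?_⟩
  rw [map_add, map_mul, map_mul, ← hp, ← hq, map_pow, map_pow, pow_add]
  ring

theorem loc_neg {s : A} {x : K} (hx : x ∈ Loc s) : -x ∈ Loc s := by
  obtain ⟨n, p, hp⟩ := hx
  exact ⟨n, -p, by rw [map_neg, ← hp]; ring⟩

theorem loc_sub {s : A} {x y : K} (hx : x ∈ Loc s) (hy : y ∈ Loc s) : x - y ∈ Loc s := by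
  rw [sub_eq_add_neg]
  exact loc_add hx (loc_neg hy)

theorem loc_mono {s t q : A} {r : ℕ} (h : t ^ r = s * q) {x : K} (hx : x ∈ Loc s) : x ∈ Loc t := by
  obtain ⟨n, p, hp⟩ := hx
  refine ⟨r * n, q ^ n * p, ?_⟩
  rw [map_mul, map_pow, ← hp, ← map_pow, pow_mul, h, mul_pow, map_mul, map_pow, map_pow]
  ring

theorem hom_mul {t r : ℤ} {x y : K} (hx : HomK t x) (hy : HomK r y) : HomK (t + r) (x * y) := by
  obtain ⟨n, m, p, q, hp, hq, hq0, hnm, he⟩ := hx
  obtain ⟨n', m', p', q', hp', hq', hq0', hnm', he'⟩ := hy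
  refine ⟨n + n', m + m', p * p', q * q', hp.mul hp', hq.mul hq', mul_ne_zero hq0 hq0', ?_, ?_⟩
  · push_cast; linarith
  · rw [map_mul, map_mul, ← he, ← he']
    ring

theorem hom_add {t : ℤ} {x y : K} (hx : HomK t x) (hy : HomK t y) : HomK t (x + y) := by
  obtain ⟨n, m, p, q, hp, hq, hq0, hnm, he⟩ := hx
  obtain ⟨n', m', p', q', hp', hq', hq0', hnm', he'⟩ := hy
  have hn : n' + m = n + m' := by omega
  refine ⟨n + m', m + m', p * q' + p' * q, q * q', ?_, hq.mul hq', mul_ne_zero hq0 hq0', ?_, ?_⟩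
  · refine (hp.mul hq').add ?_
    rw [← hn]
    exact hp'.mul hq
  · push_cast; linarith
  · rw [map_add, map_mul, map_mul, map_mul, ← he, ← he']
    ring

theorem hom_neg {t : ℤ} {x : K} (hx : HomK t x) : HomK t (-x) := by
  obtain ⟨n, m, p, q, hp, hq, hq0, hnm, he⟩ := hx
  exact ⟨n, m, -p, q, hp.neg, hq, hq0, hnm, by rw [map_neg, ← he]; ring⟩

theorem hom_map {n : ℕ} {p : A} (hp : p.IsHomogeneous n) : HomK n (algebraMap A K p) :=
  ⟨n, 0, p, 1, hp, isHomogeneous_one _ _, one_ne_zero, by simp, by rw [map_one, mul_one]⟩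

theorem hom_one : HomK 0 (1 : K) := by
  have := hom_map (isHomogeneous_one (Fin 5) ℂ)
  rwa [map_one] at this

end CORx

open CORx

theorem t_COR (he : S_EXT) : S_COR := by
  intro d F zs P C k a hF hF0 hu hk hS c hc hac y01 h01 y12 h12 y20 h20 w hw g01 g12 g20 hca
  obtain ⟨k', rfl⟩ : ∃ k', k = k' + 1 := ⟨k - 1, by omega⟩
  -- membership in the triple intersection
  have i01 : ∀ {x : K}, x ∈ Loc (C.u 0 * C.u 1) → x ∈ Loc (C.u 0 * C.u 1 * C.u 2) :=
    fun hx => loc_mono (r := 1) (q := C.u 2) (by ring) hx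
  have i12 : ∀ {x : K}, x ∈ Loc (C.u 1 * C.u 2) → x ∈ Loc (C.u 0 * C.u 1 * C.u 2) :=
    fun hx => loc_mono (r := 1) (q := C.u 0) (by ring) hx
  have i02 : ∀ {x : K}, x ∈ Loc (C.u 0 * C.u 2) → x ∈ Loc (C.u 0 * C.u 1 * C.u 2) :=
    fun hx => loc_mono (r := 1) (q := C.u 1) (by ring) hx
  have h20' : y20 ∈ Loc (C.u 0 * C.u 2) := loc_mono (r := 1) (q := 1) (by ring) h20
  have m01 := hS.mem 0 1
  have m12 := hS.mem 1 2
  have m02 := hS.mem 0 2
  obtain ⟨e, heL, hee⟩ := hS.coc 0 2 0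
  rw [hS.diag 0] at hee
  have het : e ∈ Loc (C.u 0 * C.u 1 * C.u 2) :=
    loc_mono (r := 2) (q := C.u 1 ^ 2 * C.u 2) (by ring) heL
  have hFk : HomK (((k' + 1) * d : ℕ) : ℤ) (algebraMap A K (F ^ (k' + 1))) := by
    have := hF.pow (k' + 1)
    rw [mul_comm] at this
    exact hom_map this
  have gF : ∀ {y : K}, HomK (-(((k' + 1) * d : ℕ) : ℤ)) y →
      HomK 0 (algebraMap A K (F ^ (k' + 1)) * y) := by
    intro y hy
    have := hom_mul hFk hy
    rwa [add_neg_cancel] at this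
  refine he F zs P C (k' + 1) a hF0 hu hk hS (a 0 1 * (1 - algebraMap A K (F ^ (k' + 1)) * y01))
    (a 1 2 * (1 - algebraMap A K (F ^ (k' + 1)) * y12))
    (a 0 2 * (1 + algebraMap A K (F ^ (k' + 1)) * y20)) ?_ ?_ ?_ ?_ ?_ ?_ ?_
  · exact ⟨-(a 0 1 * y01), loc_neg (loc_mul m01 h01), by ring⟩
  · exact ⟨-(a 1 2 * y12), loc_neg (loc_mul m12 h12), by ring⟩
  · exact ⟨a 0 2 * y20, loc_mul m02 h20', by ring⟩
  · have := hom_mul (hS.hom 0 1) (hom_add hom_one (hom_neg (gF g01)))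
    rwa [add_zero, ← sub_eq_add_neg] at this
  · have := hom_mul (hS.hom 1 2) (hom_add hom_one (hom_neg (gF g12)))
    rwa [add_zero, ← sub_eq_add_neg] at this
  · have := hom_mul (hS.hom 0 2) (hom_add hom_one (gF g20))
    rwa [add_zero] at this
  · refine ⟨-(c * algebraMap A K (F ^ k') * e) + a 0 2 * w -
      algebraMap A K (F ^ k') * c * (y01 + y12) +
      algebraMap A K (F ^ k') * (a 0 2 + algebraMap A K (F ^ (k' + 1)) * c) * (y01 * y12), ?_, ?_⟩
    · refine loc_add (loc_sub (loc_add (loc_neg (loc_mul (loc_mul hc (loc_map _ _)) het))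
        (loc_mul (i02 m02) hw)) (loc_mul (loc_mul (loc_map _ _) hc)
          (loc_add (i01 h01) (i12 h12)))) ?_
      exact loc_mul (loc_mul (loc_map _ _) (loc_add (i02 m02) (loc_mul (loc_map _ _) hc)))
        (loc_mul (i01 h01) (i12 h12))
    · have e1 : a 0 1 * a 1 2 = a 0 2 + algebraMap A K (F ^ (k' + 1)) * c := by
        rw [← hac]; ring
      have e2 : a 0 2 * a 2 0 = 1 + algebraMap A K (F ^ (k' + 1)) * e := by
        rw [← hee]; ring
      have e3 : y01 + y12 + y20 = c * a 2 0 - algebraMap A K F * w := by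
        rw [hca]; ring
      have e4 : algebraMap A K (F ^ (k' + 1)) = algebraMap A K F * algebraMap A K (F ^ k') := by
        rw [pow_succ', map_mul]
      have e5 : algebraMap A K (F ^ (k' + 1 + 1)) =
          algebraMap A K F * (algebraMap A K F * algebraMap A K (F ^ k')) := by
        rw [pow_succ', pow_succ', map_mul, map_mul]
      rw [e5]
      rw [e4] at e1 e2 ⊢
      generalize algebraMap A K (F ^ k') = φ at e1 e2 ⊢
      generalize algebraMap A K F = f at e1 e2 e3 ⊢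
      have e6 : y20 = c * a 2 0 - f * w - y01 - y12 := by rw [← e3]; ring
      rw [e6]
      linear_combination (1 - f * φ * y01) * (1 - f * φ * y12) * e1 - f * φ * c * e2

end Pool.Agent.NOD.S2
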