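import Pool.Agent.NOD.S2.Stm

/-!
# Project NOD, section S2, piece DER
-/

set_option autoImplicit false

namespace Pool.Agent.NOD.S2

open MvPolynomial Pool.Agent.NOD

namespace DERP


theorem inj : Function.Injective (algebraMap A K) := IsFractionRing.injective A K

theorem ne {q : A} (hq : q ≠ 0) : (algebraMap A K) q ≠ 0 := by
  intro h0
  exact hq (inj (by rw [h0, map_zero]))

theorem ex (x : K) : ∃ pq : A × A, pq.2 ≠ 0 ∧ x * (algebraMap A K) pq.2 = (algebraMap A K) pq.1 := by
  obtain ⟨p, q, hq, rfl⟩ := IsFractionRing.div_surjective (A := A) x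
  have hq0 : q ≠ 0 := nonZeroDivisors.ne_zero hq
  exact ⟨(p, q), hq0, div_mul_cancel₀ _ (ne hq0)⟩

theorem key (l : Fin 5) {x : K} {p q p' q' : A} (hq : q ≠ 0) (hq' : q' ≠ 0)
    (h : x * (algebraMap A K) q = (algebraMap A K) p) (h' : x * (algebraMap A K) q' = (algebraMap A K) p') :
    ((algebraMap A K) (pderiv l p) - x * (algebraMap A K) (pderiv l q)) / (algebraMap A K) q =
      ((algebraMap A K) (pderiv l p') - x * (algebraMap A K) (pderiv l q')) / (algebraMap A K) q' := by
  rw [div_eq_div_iff (ne hq) (ne hq')]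
  have h1 : p * q' = p' * q := by
    apply inj
    rw [map_mul, map_mul, ← h, ← h']
    ring
  have h2 : pderiv l p * q' + p * pderiv l q' = pderiv l p' * q + p' * pderiv l q := by
    have := congrArg (pderiv l) h1
    rw [pderiv_mul, pderiv_mul] at this
    exact this
  have h3 := congrArg (algebraMap A K) h2
  simp only [map_add, map_mul] at h3
  rw [← h, ← h'] at h3
  linear_combination h3

/-- The derivation. -/
noncomputable def D (l : Fin 5) (x : K) : K :=
  ((algebraMap A K) (pderiv l (ex x).choose.1) - x * (algebraMap A K) (pderiv l (ex x).choose.2)) / (algebraMap A K) (ex x).choose.2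

theorem D_eq (l : Fin 5) {x : K} {p q : A} (hq : q ≠ 0) (h : x * (algebraMap A K) q = (algebraMap A K) p) :
    D l x = ((algebraMap A K) (pderiv l p) - x * (algebraMap A K) (pderiv l q)) / (algebraMap A K) q :=
  key l (ex x).choose_spec.1 hq (ex x).choose_spec.2 h

end DERP

open DERP in
theorem t_DER : S_DER := by
  intro l
  refine ⟨D l, ?_, ?_, ?_, ?_⟩
  · intro x y
    obtain ⟨⟨p, q⟩, hq, hp⟩ := ex x
    obtain ⟨⟨r, s⟩, hs, hr⟩ := ex y
    simp only at hq hp hs hr
    have hqs : q * s ≠ 0 := mul_ne_zero hq hs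
    rw [D_eq l hq hp, D_eq l hs hr, D_eq l (p := p * s + r * q) hqs (by
      simp only [map_add, map_mul]
      rw [← hp, ← hr]
      ring)]
    have n1 := ne hq
    have n2 := ne hs
    rw [pderiv_mul, map_add (pderiv l), pderiv_mul, pderiv_mul]
    simp only [map_add, map_mul]
    rw [← hp, ← hr]
    field_simp
    ring
  · intro x y
    obtain ⟨⟨p, q⟩, hq, hp⟩ := ex x
    obtain ⟨⟨r, s⟩, hs, hr⟩ := ex y
    simp only at hq hp hs hr
    have hqs : q * s ≠ 0 := mul_ne_zero hq hs
    rw [D_eq l hq hp, D_eq l hs hr, D_eq l (p := p * r) hqs (by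
      simp only [map_mul]
      rw [← hp, ← hr]
      ring)]
    have n1 := ne hq
    have n2 := ne hs
    rw [pderiv_mul, pderiv_mul]
    simp only [map_add, map_mul]
    rw [← hp, ← hr]
    field_simp
    ring
  · intro p
    rw [D_eq l (x := algebraMap A K p) (p := p) (q := 1) one_ne_zero (by rw [map_one, mul_one])]
    have h1 : pderiv l (1 : A) = 0 := pderiv_one
    rw [h1, map_zero, mul_zero, sub_zero, map_one, div_one]
  · rintro s x ⟨n, p, hp⟩
    by_cases hs : s = 0
    · refine ⟨1, 0, ?_⟩
      rw [hs, map_zero, pow_one, zero_mul]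
    · have hsn : s ^ n ≠ 0 := pow_ne_zero _ hs
      have hx : x * algebraMap A K (s ^ n) = algebraMap A K p := by rw [map_pow, mul_comm]; exact hp
      refine ⟨2 * n, s ^ n * pderiv l p - p * pderiv l (s ^ n), ?_⟩
      rw [D_eq l hsn hx]
      have n1 : algebraMap A K (s ^ n) ≠ 0 := ne hsn
      have e : algebraMap A K s ^ (2 * n) = algebraMap A K (s ^ n) * algebraMap A K (s ^ n) := by
        rw [map_pow]; ring
      rw [e]
      simp only [map_sub, map_mul]
      rw [← hx]
      field_simp

end Pool.Agent.NOD.S2
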