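import Pool.Agent.NOD.S2.Stm

/-!
# Project NOD, section S2, piece DIV
-/

set_option autoImplicit false

namespace Pool.Agent.NOD.S2

open MvPolynomial Pool.Agent.NOD

namespace DIVP

theorem loc_alg (s p : A) : algebraMap A K p ∈ Loc s := ⟨0, p, by simp⟩

theorem loc_sub {s : A} {x y : K} (hx : x ∈ Loc s) (hy : y ∈ Loc s) : x - y ∈ Loc s := by
  obtain ⟨n, p, hp⟩ := hx
  obtain ⟨m, q, hq⟩ := hy
  refine ⟨n + m, s ^ m * p - s ^ n * q, ?_⟩
  simp only [map_sub, map_mul, map_pow]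
  rw [← hp, ← hq]
  ring

theorem loc_mul {s : A} {x y : K} (hx : x ∈ Loc s) (hy : y ∈ Loc s) : x * y ∈ Loc s := by
  obtain ⟨n, p, hp⟩ := hx
  obtain ⟨m, q, hq⟩ := hy
  refine ⟨n + m, p * q, ?_⟩
  simp only [map_mul]
  rw [← hp, ← hq]
  ring

end DIVP

open DIVP in
theorem t_DIV (h : S_CH2) : S_DIV := by
  intro F u k hF hu hreg x hx hmem
  obtain ⟨y01, h01, y12, h12, y20, h20, w, ⟨w', hw', rfl⟩, he⟩ := hmem
  have hF' : algebraMap A K F ≠ 0 := by
    intro h0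
    exact hF ((IsFractionRing.injective A K) (by rw [h0, map_zero]))
  have hsum : y01 + y12 + y20 ∈ FLoc (F ^ k) (u 0 * u 1 * u 2) := by
    refine ⟨x - algebraMap A K F * w', loc_sub hx (loc_mul (loc_alg _ _) hw'), ?_⟩
    rw [map_pow]
    rw [map_pow] at he
    linear_combination -he
  obtain ⟨z, hz, ⟨w01, hw01, e01⟩, ⟨w12, hw12, e12⟩, ⟨w20, hw20, e20⟩⟩ :=
    h F u k hF hu hreg y01 h01 y12 h12 y20 h20 hsum
  refine ⟨w01, hw01, w12, hw12, w20, hw20, algebraMap A K (F ^ 1) * w', ⟨w', hw', rfl⟩, ?_⟩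
  have hk : algebraMap A K F ^ k ≠ 0 := pow_ne_zero _ hF'
  apply mul_left_cancel₀ hk
  rw [map_pow] at he e01 e12 e20
  rw [map_pow, pow_one]
  linear_combination he + e01 + e12 + e20

end Pool.Agent.NOD.S2
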