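import Pool.Agent.NOD.S2.Stm

set_option autoImplicit false

/-! Piece EXT of project NOD, section S2 (helper55). -/

namespace Pool.Agent.NOD.S2

open MvPolynomial Pool.Agent.NOD

namespace EX

theorem loc_alg (s p : A) : algebraMap A K p ∈ Loc s := ⟨0, p, by rw [pow_zero, one_mul]⟩

theorem loc_one (s : A) : (1 : K) ∈ Loc s := by
  have h := loc_alg s 1
  rwa [map_one] at h

theorem loc_mul {s : A} {x y : K} (hx : x ∈ Loc s) (hy : y ∈ Loc s) : x * y ∈ Loc s := by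
  obtain ⟨n, p, hp⟩ := hx
  obtain ⟨m, q, hq⟩ := hy
  refine ⟨n + m, p * q, ?_⟩
  rw [map_mul, ← hp, ← hq]
  ring

theorem loc_add {s : A} {x y : K} (hx : x ∈ Loc s) (hy : y ∈ Loc s) : x + y ∈ Loc s := by
  obtain ⟨n, p, hp⟩ := hx
  obtain ⟨m, q, hq⟩ := hy
  refine ⟨n + m, s ^ m * p + s ^ n * q, ?_⟩
  rw [map_add, map_mul, map_mul, map_pow, map_pow, ← hp, ← hq]
  ring

theorem loc_neg {s : A} {x : K} (hx : x ∈ Loc s) : -x ∈ Loc s := by
  obtain ⟨n, p, hp⟩ := hx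
  refine ⟨n, -p, ?_⟩
  rw [map_neg, ← hp]
  ring

theorem loc_sub {s : A} {x y : K} (hx : x ∈ Loc s) (hy : y ∈ Loc s) : x - y ∈ Loc s := by
  rw [sub_eq_add_neg]
  exact loc_add hx (loc_neg hy)

theorem loc_mono {s t : A} (r : ℕ) (h : s ∣ t ^ r) {x : K} (hx : x ∈ Loc s) : x ∈ Loc t := by
  obtain ⟨c, hc⟩ := h
  obtain ⟨n, p, hp⟩ := hx
  refine ⟨r * n, c ^ n * p, ?_⟩
  rw [pow_mul, ← map_pow, hc, map_mul, map_mul, map_pow, ← hp]
  ring

theorem fl_loc {f s : A} {x : K} (hx : x ∈ FLoc f s) : x ∈ Loc s := by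
  obtain ⟨y, hy, rfl⟩ := hx
  exact loc_mul (loc_alg s f) hy

theorem fl_zero (f s : A) : (0 : K) ∈ FLoc f s := ⟨0, by
  have h := loc_alg s 0
  rwa [map_zero] at h, by rw [mul_zero]⟩

theorem fl_add {f s : A} {x y : K} (hx : x ∈ FLoc f s) (hy : y ∈ FLoc f s) : x + y ∈ FLoc f s := by
  obtain ⟨a, ha, rfl⟩ := hx
  obtain ⟨b, hb, rfl⟩ := hy
  exact ⟨a + b, loc_add ha hb, by ring⟩

theorem fl_mul {f s : A} {x y : K} (hx : x ∈ Loc s) (hy : y ∈ FLoc f s) : x * y ∈ FLoc f s := by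
  obtain ⟨b, hb, rfl⟩ := hy
  exact ⟨x * b, loc_mul hx hb, by ring⟩

theorem fl_neg {f s : A} {x : K} (hx : x ∈ FLoc f s) : -x ∈ FLoc f s := by
  obtain ⟨a, ha, rfl⟩ := hx
  exact ⟨-a, loc_neg ha, by ring⟩

theorem fl_mono {f s t : A} (r : ℕ) (h : s ∣ t ^ r) {x : K} (hx : x ∈ FLoc f s) : x ∈ FLoc f t := by
  obtain ⟨a, ha, rfl⟩ := hx
  exact ⟨a, loc_mono r h ha, rfl⟩

theorem fl_dvd {f g s : A} (h : f ∣ g) {x : K} (hx : x ∈ FLoc g s) : x ∈ FLoc f s := by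
  obtain ⟨c, rfl⟩ := h
  obtain ⟨a, ha, rfl⟩ := hx
  exact ⟨algebraMap A K c * a, loc_mul (loc_alg s c) ha, by rw [map_mul]; ring⟩

theorem fl_mul_fl {f g s : A} {x y : K} (hx : x ∈ FLoc f s) (hy : y ∈ FLoc g s) :
    x * y ∈ FLoc (f * g) s := by
  obtain ⟨a, ha, rfl⟩ := hx
  obtain ⟨b, hb, rfl⟩ := hy
  exact ⟨a * b, loc_mul ha hb, by rw [map_mul]; ring⟩

theorem hom_mul {t t' : ℤ} {x y : K} (hx : HomK t x) (hy : HomK t' y) : HomK (t + t') (x * y) := by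
  obtain ⟨n, m, p, q, hp, hq, h0, hd, he⟩ := hx
  obtain ⟨n', m', p', q', hp', hq', h0', hd', he'⟩ := hy
  refine ⟨n + n', m + m', p * p', q * q', hp.mul hp', hq.mul hq', mul_ne_zero h0 h0', ?_, ?_⟩
  · push_cast
    omega
  · rw [map_mul, map_mul, ← he, ← he']
    ring

theorem hom_add {t : ℤ} {x y : K} (hx : HomK t x) (hy : HomK t y) : HomK t (x + y) := by
  obtain ⟨n, m, p, q, hp, hq, h0, hd, he⟩ := hx
  obtain ⟨n', m', p', q', hp', hq', h0', hd', he'⟩ := hy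
  refine ⟨n + m', m + m', p * q' + p' * q, q * q', ?_, hq.mul hq', mul_ne_zero h0 h0', ?_, ?_⟩
  · refine (hp.mul hq').add ?_
    have : n + m' = n' + m := by omega
    rw [this]
    exact hp'.mul hq
  · push_cast
    omega
  · rw [map_add, map_mul, map_mul, map_mul, ← he, ← he']
    ring

theorem hom_neg {t : ℤ} {x : K} (hx : HomK t x) : HomK t (-x) := by
  obtain ⟨n, m, p, q, hp, hq, h0, hd, he⟩ := hx
  refine ⟨n, m, -p, q, hp.neg, hq, h0, hd, ?_⟩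
  rw [map_neg, ← he]
  ring

theorem hom_const (c : ℂ) : HomK 0 (algebraMap A K (C c)) := by
  refine ⟨0, 0, C c, 1, isHomogeneous_C _ _, isHomogeneous_one _ _, one_ne_zero, by simp, ?_⟩
  rw [map_one, mul_one]

theorem hom_two : HomK 0 (2 : K) := by
  have h := hom_const 2
  have e : algebraMap A K (C (2 : ℂ)) = 2 := by
    rw [map_ofNat, map_ofNat]
  rwa [e] at h

theorem hom_one : HomK 0 (1 : K) := by
  have h := hom_const 1
  rwa [map_one, map_one] at h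

/-- the corrected inverse -/
theorem inv_ok {F : A} {k : ℕ} (hk : 1 ≤ k) {s s' : A} (hs : s' ∣ s ^ 2) {a b c : K}
    (ha : a ∈ Loc s) (hb : b ∈ Loc s) (hab : b - a ∈ FLoc (F ^ k) s) (hc : c ∈ Loc s)
    (hac : a * c - 1 ∈ FLoc (F ^ k) s') :
    c * (2 - b * c) ∈ Loc s ∧ b * (c * (2 - b * c)) - 1 ∈ FLoc (F ^ (k + 1)) s ∧
      c * (2 - b * c) - c ∈ FLoc (F ^ k) s := by
  have h1 : b * c - 1 ∈ FLoc (F ^ k) s := by
    have e : b * c - 1 = c * (b - a) + (a * c - 1) := by ring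
    rw [e]
    exact fl_add (fl_mul hc hab) (fl_mono 2 hs hac)
  have h2 : (2 : K) ∈ Loc s := by
    have e : (2 : K) = 1 + 1 := by norm_num
    rw [e]
    exact loc_add (loc_one s) (loc_one s)
  refine ⟨loc_mul hc (loc_sub h2 (loc_mul hb hc)), ?_, ?_⟩
  · have e : b * (c * (2 - b * c)) - 1 = -((b * c - 1) * (b * c - 1)) := by ring
    rw [e]
    refine fl_neg (fl_dvd ?_ (fl_mul_fl h1 h1))
    rw [← pow_add]
    exact pow_dvd_pow F (by omega)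
  · have e : c * (2 - b * c) - c = -(c * (b * c - 1)) := by ring
    rw [e]
    exact fl_neg (fl_mul hc h1)

/-- the six cocycle conditions -/
theorem coc6 {f s : A} {b01 b12 b02 c10 c21 c20 : K} (h01 : b01 ∈ Loc s) (h12 : b12 ∈ Loc s)
    (h02 : b02 ∈ Loc s) (h10 : c10 ∈ Loc s) (h21 : c21 ∈ Loc s) (h20 : c20 ∈ Loc s)
    (e1 : b01 * c10 - 1 ∈ FLoc f s) (e2 : b12 * c21 - 1 ∈ FLoc f s)
    (e3 : b02 * c20 - 1 ∈ FLoc f s) (e4 : b01 * b12 - b02 ∈ FLoc f s) :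
    b02 * c21 - b01 ∈ FLoc f s ∧ c10 * b02 - b12 ∈ FLoc f s ∧ b12 * c20 - c10 ∈ FLoc f s ∧
      c20 * b01 - c21 ∈ FLoc f s ∧ c21 * c10 - c20 ∈ FLoc f s := by
  refine ⟨?_, ?_, ?_, ?_, ?_⟩
  · have e : b02 * c21 - b01 = (-c21) * (b01 * b12 - b02) + b01 * (b12 * c21 - 1) := by ring
    rw [e]
    exact fl_add (fl_mul (loc_neg h21) e4) (fl_mul h01 e2)
  · have e : c10 * b02 - b12 = (-c10) * (b01 * b12 - b02) + b12 * (b01 * c10 - 1) := by ring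
    rw [e]
    exact fl_add (fl_mul (loc_neg h10) e4) (fl_mul h12 e1)
  · have e : b12 * c20 - c10 = (-(b12 * c20)) * (b01 * c10 - 1) + (c10 * c20) * (b01 * b12 - b02) +
        c10 * (b02 * c20 - 1) := by ring
    rw [e]
    exact fl_add (fl_add (fl_mul (loc_neg (loc_mul h12 h20)) e1) (fl_mul (loc_mul h10 h20) e4))
      (fl_mul h10 e3)
  · have e : c20 * b01 - c21 = (-(c20 * b01)) * (b12 * c21 - 1) + (c20 * c21) * (b01 * b12 - b02) +
        c21 * (b02 * c20 - 1) := by ring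
    rw [e]
    exact fl_add (fl_add (fl_mul (loc_neg (loc_mul h20 h01)) e2) (fl_mul (loc_mul h20 h21) e4))
      (fl_mul h21 e3)
  · have e : c21 * c10 - c20 = (-(c21 * c10)) * (b02 * c20 - 1) +
        (-(c20 * (c21 * c10))) * (b01 * b12 - b02) + (c20 * (b12 * c21)) * (b01 * c10 - 1) +
        c20 * (b12 * c21 - 1) := by ring
    rw [e]
    exact fl_add (fl_add (fl_add (fl_mul (loc_neg (loc_mul h21 h10)) e3)
      (fl_mul (loc_neg (loc_mul h20 (loc_mul h21 h10))) e4))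
      (fl_mul (loc_mul h20 (loc_mul h12 h21)) e1)) (fl_mul h20 e2)

end EX

open EX

theorem t_EXT : S_EXT := by
  intro F zs P C k a hF hu hk hS b01 b12 b02 g01 g12 g02 m01 m12 m02 hb
  -- basic memberships
  have a01 := hS.mem 0 1
  have a12 := hS.mem 1 2
  have a02 := hS.mem 0 2
  have a10 : a 1 0 ∈ Loc (C.u 0 * C.u 1) := by
    have h := hS.mem 1 0
    rwa [mul_comm] at h
  have a21 : a 2 1 ∈ Loc (C.u 1 * C.u 2) := by
    have h := hS.mem 2 1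
    rwa [mul_comm] at h
  have a20 : a 2 0 ∈ Loc (C.u 0 * C.u 2) := by
    have h := hS.mem 2 0
    rwa [mul_comm] at h
  have b01' : b01 ∈ Loc (C.u 0 * C.u 1) := by
    have h := loc_add (fl_loc g01) a01
    rwa [sub_add_cancel] at h
  have b12' : b12 ∈ Loc (C.u 1 * C.u 2) := by
    have h := loc_add (fl_loc g12) a12
    rwa [sub_add_cancel] at h
  have b02' : b02 ∈ Loc (C.u 0 * C.u 2) := by
    have h := loc_add (fl_loc g02) a02
    rwa [sub_add_cancel] at h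
  have i01 : a 0 1 * a 1 0 - 1 ∈ FLoc (F ^ k) (C.u 0 * C.u 1 * C.u 0) := by
    have h := hS.coc 0 1 0
    rwa [hS.diag 0] at h
  have i12 : a 1 2 * a 2 1 - 1 ∈ FLoc (F ^ k) (C.u 1 * C.u 2 * C.u 1) := by
    have h := hS.coc 1 2 1
    rwa [hS.diag 1] at h
  have i02 : a 0 2 * a 2 0 - 1 ∈ FLoc (F ^ k) (C.u 0 * C.u 2 * C.u 0) := by
    have h := hS.coc 0 2 0
    rwa [hS.diag 0] at h
  obtain ⟨c10, e1, d10⟩ := inv_ok hk (s := C.u 0 * C.u 1) (s' := C.u 0 * C.u 1 * C.u 0)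
    ⟨C.u 1, by ring⟩ a01 b01' g01 a10 i01
  obtain ⟨c21, e2, d21⟩ := inv_ok hk (s := C.u 1 * C.u 2) (s' := C.u 1 * C.u 2 * C.u 1)
    ⟨C.u 2, by ring⟩ a12 b12' g12 a21 i12
  obtain ⟨c20, e3, d20⟩ := inv_ok hk (s := C.u 0 * C.u 2) (s' := C.u 0 * C.u 2 * C.u 0)
    ⟨C.u 2, by ring⟩ a02 b02' g02 a20 i02
  have h01 := hS.hom 0 1
  have h10 := hS.hom 1 0
  have h21 := hS.hom 2 1
  have h20 := hS.hom 2 0
  have hh : ∀ {t : ℤ} {b c : K}, HomK t b → HomK (-t) c → HomK (-t) (c * (2 - b * c)) := by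
    intro t b c hb hc
    have h1 := hom_mul hb hc
    rw [add_neg_cancel] at h1
    have h2 := hom_add hom_two (hom_neg h1)
    have h3 := hom_mul hc h2
    rw [add_zero, ← sub_eq_add_neg] at h3
    exact h3
  have hc10 : HomK ((C.gam 0 : ℤ) - C.gam 1) (a 1 0 * (2 - b01 * a 1 0)) := by
    have e : ((C.gam 0 : ℤ) - C.gam 1) = -((C.gam 1 : ℤ) - C.gam 0) := by ring
    rw [e] at h10 ⊢
    exact hh m01 h10
  have hc21 : HomK ((C.gam 1 : ℤ) - C.gam 2) (a 2 1 * (2 - b12 * a 2 1)) := by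
    have e : ((C.gam 1 : ℤ) - C.gam 2) = -((C.gam 2 : ℤ) - C.gam 1) := by ring
    rw [e] at h21 ⊢
    exact hh m12 h21
  have hc20 : HomK ((C.gam 0 : ℤ) - C.gam 2) (a 2 0 * (2 - b02 * a 2 0)) := by
    have e : ((C.gam 0 : ℤ) - C.gam 2) = -((C.gam 2 : ℤ) - C.gam 0) := by ring
    rw [e] at h20 ⊢
    exact hh m02 h20
  set c10' := a 1 0 * (2 - b01 * a 1 0) with hc10'
  set c21' := a 2 1 * (2 - b12 * a 2 1) with hc21'
  set c20' := a 2 0 * (2 - b02 * a 2 0) with hc20'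
  -- everything in the triple intersection
  have T01 : ∀ {x : K}, x ∈ Loc (C.u 0 * C.u 1) → x ∈ Loc (C.u 0 * C.u 1 * C.u 2) :=
    fun hx => loc_mono 1 ⟨C.u 2, by ring⟩ hx
  have T12 : ∀ {x : K}, x ∈ Loc (C.u 1 * C.u 2) → x ∈ Loc (C.u 0 * C.u 1 * C.u 2) :=
    fun hx => loc_mono 1 ⟨C.u 0, by ring⟩ hx
  have T02 : ∀ {x : K}, x ∈ Loc (C.u 0 * C.u 2) → x ∈ Loc (C.u 0 * C.u 1 * C.u 2) :=
    fun hx => loc_mono 1 ⟨C.u 1, by ring⟩ hx
  have T01f : ∀ {f : A} {x : K}, x ∈ FLoc f (C.u 0 * C.u 1) → x ∈ FLoc f (C.u 0 * C.u 1 * C.u 2) :=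
    fun hx => fl_mono 1 ⟨C.u 2, by ring⟩ hx
  have T12f : ∀ {f : A} {x : K}, x ∈ FLoc f (C.u 1 * C.u 2) → x ∈ FLoc f (C.u 0 * C.u 1 * C.u 2) :=
    fun hx => fl_mono 1 ⟨C.u 0, by ring⟩ hx
  have T02f : ∀ {f : A} {x : K}, x ∈ FLoc f (C.u 0 * C.u 2) → x ∈ FLoc f (C.u 0 * C.u 1 * C.u 2) :=
    fun hx => fl_mono 1 ⟨C.u 1, by ring⟩ hx
  obtain ⟨q1, q2, q3, q4, q5⟩ := coc6 (T01 b01') (T12 b12') (T02 b02') (T01 c10) (T12 c21)
    (T02 c20) (T01f e1) (T12f e2) (T02f e3) hb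
  let a' : Fin 3 → Fin 3 → K := ![![1, b01, b02], ![c10', 1, b12], ![c20', c21', 1]]
  have a'00 : a' 0 0 = 1 := rfl
  have a'01 : a' 0 1 = b01 := rfl
  have a'02 : a' 0 2 = b02 := rfl
  have a'10 : a' 1 0 = c10' := rfl
  have a'11 : a' 1 1 = 1 := rfl
  have a'12 : a' 1 2 = b12 := rfl
  have a'20 : a' 2 0 = c20' := rfl
  have a'21 : a' 2 1 = c21' := rfl
  have a'22 : a' 2 2 = 1 := rfl
  have hdiff : ∀ i j, a' i j - a i j ∈ FLoc (F ^ k) (C.u i * C.u j) := by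
    intro i j
    fin_cases i <;> fin_cases j
    · change a' 0 0 - a 0 0 ∈ FLoc (F ^ k) (C.u 0 * C.u 0)
      rw [a'00, hS.diag, sub_self]
      exact fl_zero _ _
    · exact g01
    · exact g02
    · change a' 1 0 - a 1 0 ∈ FLoc (F ^ k) (C.u 1 * C.u 0)
      rw [a'10, mul_comm (C.u 1)]
      exact d10
    · change a' 1 1 - a 1 1 ∈ FLoc (F ^ k) (C.u 1 * C.u 1)
      rw [a'11, hS.diag, sub_self]
      exact fl_zero _ _
    · exact g12
    · change a' 2 0 - a 2 0 ∈ FLoc (F ^ k) (C.u 2 * C.u 0)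
      rw [a'20, mul_comm (C.u 2)]
      exact d20
    · change a' 2 1 - a 2 1 ∈ FLoc (F ^ k) (C.u 2 * C.u 1)
      rw [a'21, mul_comm (C.u 2)]
      exact d21
    · change a' 2 2 - a 2 2 ∈ FLoc (F ^ k) (C.u 2 * C.u 2)
      rw [a'22, hS.diag, sub_self]
      exact fl_zero _ _
  refine ⟨a', ⟨?_, ?_, ?_, ?_, ?_⟩, hdiff⟩
  · intro i j
    have h := loc_add (fl_loc (hdiff i j)) (hS.mem i j)
    rwa [sub_add_cancel] at h
  · intro i j
    fin_cases i <;> fin_cases j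
    · change HomK ((C.gam 0 : ℤ) - C.gam 0) 1
      rw [sub_self]; exact hom_one
    · exact m01
    · exact m02
    · exact hc10
    · change HomK ((C.gam 1 : ℤ) - C.gam 1) 1
      rw [sub_self]; exact hom_one
    · exact m12
    · exact hc20
    · exact hc21
    · change HomK ((C.gam 2 : ℤ) - C.gam 2) 1
      rw [sub_self]; exact hom_one
  · intro i
    fin_cases i
    · exact a'00
    · exact a'11
    · exact a'22
  · intro i j
    have e : algebraMap A K (C.g i) * a' i j - algebraMap A K (C.g j) =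
        (algebraMap A K (C.g i) * a i j - algebraMap A K (C.g j)) +
        algebraMap A K (C.g i) * (a' i j - a i j) := by ring
    rw [e]
    refine fl_add (hS.gen i j) (fl_mul (loc_alg _ _) (fl_dvd ?_ (hdiff i j)))
    exact dvd_pow_self F (by omega)
  · intro i j l
    have hr : ∀ {s x : _}, x = (0 : K) → x ∈ FLoc (F ^ (k + 1)) s := by
      intro s x hx
      rw [hx]
      exact fl_zero _ _
    fin_cases i <;> fin_cases j <;> fin_cases l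
    -- 0 0 _
    · exact hr (show a' 0 0 * a' 0 0 - a' 0 0 = 0 by rw [a'00]; ring)
    · exact hr (show a' 0 0 * a' 0 1 - a' 0 1 = 0 by rw [a'00]; ring)
    · exact hr (show a' 0 0 * a' 0 2 - a' 0 2 = 0 by rw [a'00]; ring)
    -- 0 1 _
    · exact fl_mono (s := C.u 0 * C.u 1) 1 ⟨C.u 0, by change (C.u 0 * C.u 1 * C.u 0) ^ 1 = _; ring⟩ e1
    · exact hr (show a' 0 1 * a' 1 1 - a' 0 1 = 0 by rw [a'11]; ring)
    · exact hb
    -- 0 2 _
    · exact fl_mono (s := C.u 0 * C.u 2) 1 ⟨C.u 0, by change (C.u 0 * C.u 2 * C.u 0) ^ 1 = _; ring⟩ e3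
    · exact fl_mono (s := C.u 0 * C.u 1 * C.u 2) 1
        ⟨1, by change (C.u 0 * C.u 2 * C.u 1) ^ 1 = _; ring⟩ q1
    · exact hr (show a' 0 2 * a' 2 2 - a' 0 2 = 0 by rw [a'22]; ring)
    -- 1 0 _
    · exact hr (show a' 1 0 * a' 0 0 - a' 1 0 = 0 by rw [a'00]; ring)
    · have h : a' 1 0 * a' 0 1 - a' 1 1 ∈ FLoc (F ^ (k + 1)) (C.u 0 * C.u 1) := by
        rw [a'10, a'01, a'11, mul_comm c10']
        exact e1
      exact fl_mono (s := C.u 0 * C.u 1) 1 ⟨C.u 1, by change (C.u 1 * C.u 0 * C.u 1) ^ 1 = _; ring⟩ h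
    · exact fl_mono (s := C.u 0 * C.u 1 * C.u 2) 1
        ⟨1, by change (C.u 1 * C.u 0 * C.u 2) ^ 1 = _; ring⟩ q2
    -- 1 1 _
    · exact hr (show a' 1 1 * a' 1 0 - a' 1 0 = 0 by rw [a'11]; ring)
    · exact hr (show a' 1 1 * a' 1 1 - a' 1 1 = 0 by rw [a'11]; ring)
    · exact hr (show a' 1 1 * a' 1 2 - a' 1 2 = 0 by rw [a'11]; ring)
    -- 1 2 _
    · exact fl_mono (s := C.u 0 * C.u 1 * C.u 2) 1
        ⟨1, by change (C.u 1 * C.u 2 * C.u 0) ^ 1 = _; ring⟩ q3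
    · exact fl_mono (s := C.u 1 * C.u 2) 1 ⟨C.u 1, by change (C.u 1 * C.u 2 * C.u 1) ^ 1 = _; ring⟩ e2
    · exact hr (show a' 1 2 * a' 2 2 - a' 1 2 = 0 by rw [a'22]; ring)
    -- 2 0 _
    · exact hr (show a' 2 0 * a' 0 0 - a' 2 0 = 0 by rw [a'00]; ring)
    · exact fl_mono (s := C.u 0 * C.u 1 * C.u 2) 1
        ⟨1, by change (C.u 2 * C.u 0 * C.u 1) ^ 1 = _; ring⟩ q4
    · have h : a' 2 0 * a' 0 2 - a' 2 2 ∈ FLoc (F ^ (k + 1)) (C.u 0 * C.u 2) := by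
        rw [a'20, a'02, a'22, mul_comm c20']
        exact e3
      exact fl_mono (s := C.u 0 * C.u 2) 1 ⟨C.u 2, by change (C.u 2 * C.u 0 * C.u 2) ^ 1 = _; ring⟩ h
    -- 2 1 _
    · exact fl_mono (s := C.u 0 * C.u 1 * C.u 2) 1
        ⟨1, by change (C.u 2 * C.u 1 * C.u 0) ^ 1 = _; ring⟩ q5
    · exact hr (show a' 2 1 * a' 1 1 - a' 2 1 = 0 by rw [a'11]; ring)
    · have h : a' 2 1 * a' 1 2 - a' 2 2 ∈ FLoc (F ^ (k + 1)) (C.u 1 * C.u 2) := by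
        rw [a'21, a'12, a'22, mul_comm c21']
        exact e2
      exact fl_mono (s := C.u 1 * C.u 2) 1 ⟨C.u 2, by change (C.u 2 * C.u 1 * C.u 2) ^ 1 = _; ring⟩ h
    -- 2 2 _
    · exact hr (show a' 2 2 * a' 2 0 - a' 2 0 = 0 by rw [a'22]; ring)
    · exact hr (show a' 2 2 * a' 2 1 - a' 2 1 = 0 by rw [a'22]; ring)
    · exact hr (show a' 2 2 * a' 2 2 - a' 2 2 = 0 by rw [a'22]; ring)

end Pool.Agent.NOD.S2
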