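import Pool.Agent.NOD.S2.Stm

/-!
# Project NOD, section S2, piece HOM
-/

set_option autoImplicit false

namespace Pool.Agent.NOD.S2

open MvPolynomial Pool.Agent.NOD

namespace HOMP

theorem hcm (b G : A) (e i : ℕ) (hG : G.IsHomogeneous e) :
    homogeneousComponent i (b * G) =
      if e ≤ i then homogeneousComponent (i - e) b * G else 0 := by
  conv_lhs => rw [← sum_homogeneousComponent b, Finset.sum_mul, map_sum]
  have h1 : ∀ k, homogeneousComponent i (homogeneousComponent k b * G) =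
      if i = k + e then homogeneousComponent k b * G else 0 := fun k =>
    homogeneousComponent_of_mem ((homogeneousComponent_isHomogeneous k b).mul hG)
  rw [Finset.sum_congr rfl fun k _ => h1 k]
  by_cases he : e ≤ i
  · rw [if_pos he]
    by_cases hk : i - e ∈ Finset.range (b.totalDegree + 1)
    · rw [Finset.sum_eq_single_of_mem (i - e) hk, if_pos (by omega)]
      intro k _ hne
      rw [if_neg (by omega)]
    · rw [homogeneousComponent_eq_zero (i - e) b (by
        simp only [Finset.mem_range] at hk; omega), zero_mul]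
      refine Finset.sum_eq_zero fun k hk' => ?_
      rw [if_neg]
      intro h
      apply hk
      have : i - e = k := by omega
      rw [this]
      exact hk'
  · rw [if_neg he]
    refine Finset.sum_eq_zero fun k _ => ?_
    rw [if_neg (by omega)]

theorem hce (b G : A) (e i : ℕ) (hG : G.IsHomogeneous e) :
    ∃ b' : A, homogeneousComponent i (b * G) = b' * G ∧
      (e ≤ i → b'.IsHomogeneous (i - e)) ∧ (¬ e ≤ i → b' = 0) := by
  by_cases he : e ≤ i
  · refine ⟨homogeneousComponent (i - e) b, ?_, fun _ => homogeneousComponent_isHomogeneous _ _,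
      fun h => absurd he h⟩
    rw [hcm b G e i hG, if_pos he]
  · refine ⟨0, ?_, fun h => absurd h he, fun _ => rfl⟩
    rw [hcm b G e i hG, if_neg he, zero_mul]

theorem hom0 (t : ℤ) : HomK t 0 := by
  rcases le_total 0 t with h | h
  · refine ⟨t.toNat, 0, 0, 1, isHomogeneous_zero _ _ _, isHomogeneous_one _ _, one_ne_zero, ?_, ?_⟩
    · rw [Int.toNat_of_nonneg h]; simp
    · simp
  · refine ⟨0, (-t).toNat, 0, X 0 ^ (-t).toNat, isHomogeneous_zero _ _ _, ?_,
      pow_ne_zero _ (X_ne_zero 0), ?_, ?_⟩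
    · have := (isHomogeneous_X ℂ (0 : Fin 5)).pow (-t).toNat
      rwa [one_mul] at this
    · rw [Int.toNat_of_nonneg (by omega)]; simp
    · simp

theorem inj : Function.Injective (algebraMap A K) := IsFractionRing.injective A K

theorem ne {q : A} (hq : q ≠ 0) : algebraMap A K q ≠ 0 := by
  intro h0
  exact hq (inj (by rw [h0, map_zero]))

/-- `b / s ^ n` is in `Loc s` and homogeneous. -/
theorem mk {s b : A} {δ n e i : ℕ} {t : ℤ} (hs0 : s ≠ 0) (hs : s.IsHomogeneous δ)
    (h1 : e ≤ i → b.IsHomogeneous (i - e)) (h2 : ¬ e ≤ i → b = 0)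
    (ht : (i : ℤ) = t + e + n * δ) :
    algebraMap A K b / algebraMap A K s ^ n ∈ Loc s ∧
      HomK t (algebraMap A K b / algebraMap A K s ^ n) := by
  have n0 : algebraMap A K s ^ n ≠ 0 := pow_ne_zero _ (ne hs0)
  refine ⟨⟨n, b, mul_div_cancel₀ _ n0⟩, ?_⟩
  by_cases he : e ≤ i
  · refine ⟨i - e, δ * n, b, s ^ n, h1 he, hs.pow n, pow_ne_zero _ hs0, ?_, ?_⟩
    · push_cast [Nat.cast_sub he]
      rw [ht]
      ring
    · rw [map_pow]
      exact div_mul_cancel₀ _ n0
  · rw [h2 he, map_zero, zero_div]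
    exact hom0 t

end HOMP

open HOMP in
theorem t_HOM : S_HOM := by
  intro F u d del n i t p c hu hF hdel hp hi hc hQ
  unfold Qn at hQ
  rw [Ideal.mem_span_insert] at hQ
  obtain ⟨a, z1, hz1, e1⟩ := hQ
  rw [Ideal.mem_span_insert] at hz1
  obtain ⟨b0, z2, hz2, e2⟩ := hz1
  rw [Ideal.mem_span_pair] at hz2
  obtain ⟨b1, b2, e3⟩ := hz2
  have hpe : p = a * F + b0 * u 0 ^ n + b1 * u 1 ^ n + b2 * u 2 ^ n := by
    rw [e1, e2, ← e3]; ring
  obtain ⟨a', ha', ha1, ha2⟩ := hce a F d i hF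
  obtain ⟨c0, hc0, hc01, hc02⟩ := hce b0 (u 0 ^ n) (del 0 * n) i ((hdel 0).pow n)
  obtain ⟨c1, hc1, hc11, hc12⟩ := hce b1 (u 1 ^ n) (del 1 * n) i ((hdel 1).pow n)
  obtain ⟨c2, hc2, hc21, hc22⟩ := hce b2 (u 2 ^ n) (del 2 * n) i ((hdel 2).pow n)
  have hpe' : p = a' * F + c0 * u 0 ^ n + c1 * u 1 ^ n + c2 * u 2 ^ n := by
    have := congrArg (homogeneousComponent i) hpe
    rw [homogeneousComponent_eq_self hp] at this
    simp only [map_add] at this
    rw [ha', hc0, hc1, hc2] at this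
    exact this
  have hi' : (i : ℤ) = t + n * ((del 0 : ℤ) + del 1 + del 2) := by
    rw [hi, Fin.sum_univ_three]
  obtain ⟨l01, m01⟩ := mk (t := t) (n := n) (mul_ne_zero (hu 0) (hu 1))
    ((hdel 0).mul (hdel 1)) hc21 hc22 (by push_cast; rw [hi']; ring)
  obtain ⟨l12, m12⟩ := mk (t := t) (n := n) (mul_ne_zero (hu 1) (hu 2))
    ((hdel 1).mul (hdel 2)) hc01 hc02 (by push_cast; rw [hi']; ring)
  obtain ⟨l20, m20⟩ := mk (t := t) (n := n) (mul_ne_zero (hu 2) (hu 0))
    ((hdel 2).mul (hdel 0)) hc11 hc12 (by push_cast; rw [hi']; ring)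
  have n0 := ne (hu 0)
  have n1 := ne (hu 1)
  have n2 := ne (hu 2)
  have n012 : algebraMap A K (u 0 * u 1 * u 2) ^ n ≠ 0 := by
    rw [map_mul, map_mul]
    positivity
  refine ⟨_, l01, _, l12, _, l20, algebraMap A K a' / algebraMap A K (u 0 * u 1 * u 2) ^ n,
    ⟨n, a', mul_div_cancel₀ _ n012⟩, m01, m12, m20, ?_⟩
  apply mul_left_cancel₀ n012
  rw [hc, hpe']
  simp only [map_add, map_mul, map_pow, mul_pow]
  field_simp
  ring

end Pool.Agent.NOD.S2
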