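import Pool.Agent.NOD.S2.Stm

/-!
# Project NOD, section S2, piece LEV: the system of level one
-/

set_option autoImplicit false

namespace Pool.Agent.NOD.S2

open MvPolynomial Pool.Agent.NOD

/-- homogeneous coefficient -/
theorem LEV_comp {h w : A} {e N : ℕ} (hh : h.IsHomogeneous e) :
    ∃ w' : A, h * w' = homogeneousComponent N (h * w) ∧
      ((e ≤ N ∧ w'.IsHomogeneous (N - e)) ∨ (N < e ∧ w' = 0)) := by
  classical
  rcases Nat.lt_or_ge N e with hN | hN
  · refine ⟨0, ?_, Or.inr ⟨hN, rfl⟩⟩
    rw [mul_zero]
    symm
    have hsum : h * w = ∑ i ∈ Finset.range (w.totalDegree + 1), h * homogeneousComponent i w := by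
      rw [← Finset.mul_sum, sum_homogeneousComponent]
    rw [hsum, map_sum]
    apply Finset.sum_eq_zero
    intro i _
    have h1 : (h * homogeneousComponent i w).IsHomogeneous (e + i) :=
      hh.mul (homogeneousComponent_isHomogeneous i w)
    rw [homogeneousComponent_of_mem ((mem_homogeneousSubmodule _ _).2 h1), if_neg (by omega)]
  · refine ⟨homogeneousComponent (N - e) w, ?_, Or.inl ⟨hN, homogeneousComponent_isHomogeneous _ _⟩⟩
    have hsum : h * w = ∑ i ∈ Finset.range (max (w.totalDegree + 1) (N - e + 1)),
        h * homogeneousComponent i w := by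
      rw [← Finset.mul_sum]
      congr 1
      rw [← Finset.sum_subset (s₁ := Finset.range (w.totalDegree + 1)), sum_homogeneousComponent]
      · intro i hi
        rw [Finset.mem_range] at hi ⊢
        omega
      · intro i _ hi
        rw [Finset.mem_range] at hi
        exact homogeneousComponent_eq_zero _ _ (by omega)
    rw [hsum, map_sum]
    rw [Finset.sum_eq_single (N - e)]
    · have h1 : (h * homogeneousComponent (N - e) w).IsHomogeneous (e + (N - e)) :=
        hh.mul (homogeneousComponent_isHomogeneous (N - e) w)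
      rw [homogeneousComponent_of_mem ((mem_homogeneousSubmodule _ _).2 h1), if_pos (by omega)]
    · intro i _ hi
      have h1 : (h * homogeneousComponent i w).IsHomogeneous (e + i) :=
        hh.mul (homogeneousComponent_isHomogeneous i w)
      rw [homogeneousComponent_of_mem ((mem_homogeneousSubmodule _ _).2 h1), if_neg (by omega)]
    · intro hi
      exfalso
      apply hi
      rw [Finset.mem_range]
      omega

/-- the transition function for two indices -/
theorem LEV_pair {d : ℕ} {F : A} {zs : Finset (Fin 5 → ℂ)} {P : Ideal A} (C : Chart F zs P)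
    (hF : F.IsHomogeneous d) (hu : ∀ i, C.u i ≠ 0) (i j : Fin 3) :
    ∃ α b : A, C.u i * C.g j = b * F + α * C.g i ∧
      HomK ((C.gam j : ℤ) - C.gam i) (algebraMap A K α / algebraMap A K (C.u i)) := by
  have h1 := C.loc i (C.g j) (C.g_mem j)
  rw [Ideal.mem_span_pair] at h1
  obtain ⟨b, α, h1⟩ := h1
  obtain ⟨α', hα1, hα2⟩ := LEV_comp (w := α) (N := C.del i + C.gam j) (C.g_hom i)
  obtain ⟨b', hb1, -⟩ := LEV_comp (w := b) (N := C.del i + C.gam j) hF
  have hui : algebraMap A K (C.u i) ≠ 0 := by
    rw [Ne, IsFractionRing.to_map_eq_zero_iff]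
    exact hu i
  refine ⟨α', b', ?_, ?_⟩
  · have h2 : (C.u i * C.g j).IsHomogeneous (C.del i + C.gam j) := (C.u_hom i).mul (C.g_hom j)
    have h3 : homogeneousComponent (C.del i + C.gam j) (C.u i * C.g j) = C.u i * C.g j := by
      rw [homogeneousComponent_of_mem ((mem_homogeneousSubmodule _ _).2 h2), if_pos rfl]
    rw [← h3, ← h1, map_add, mul_comm b F, mul_comm α, ← hα1, ← hb1]
    ring
  · rcases hα2 with ⟨hle, hα⟩ | ⟨hlt, hα⟩
    · refine ⟨_, _, α', C.u i, hα, C.u_hom i, hu i, ?_, ?_⟩
      · push_cast [Nat.cast_sub hle]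
        ring
      · rw [div_mul_cancel₀ _ hui]
    · refine ⟨C.gam j, C.gam i, 0, X 0 ^ C.gam i, isHomogeneous_zero _ _ _, ?_, ?_, by ring, ?_⟩
      · have := (isHomogeneous_X ℂ (0 : Fin 5)).pow (C.gam i)
        rwa [one_mul] at this
      · exact pow_ne_zero _ (X_ne_zero _)
      · rw [hα]
        simp

theorem t_LEV : S_LEV := by
  classical
  intro d F zs P C hF hFp hP hFP hht
  have hu : ∀ i, C.u i ≠ 0 := fun i h => C.u_not i (by rw [h]; exact P.zero_mem)
  have hFu : ∀ i, ¬ F ∣ C.u i := fun i h => C.u_not i (P.mem_of_dvd h hFP)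
  have hFg : ∀ i, ¬ F ∣ C.g i := by
    intro i h
    have hPF : P = Ideal.span {F} := by
      apply le_antisymm
      · intro p hp
        rw [Ideal.mem_span_singleton]
        have h1 := C.loc i p hp
        rw [Ideal.mem_span_pair] at h1
        obtain ⟨a, b, hab⟩ := h1
        have h2 : F ∣ C.u i * p := by
          rw [← hab]
          exact dvd_add (Dvd.intro_left _ rfl) (h.mul_left _)
        rcases hFp.dvd_or_dvd h2 with h3 | h3
        · exact absurd h3 (hFu i)
        · exact h3
      · rw [Ideal.span_singleton_le_iff_mem]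
        exact hFP
    have h2 : P.height ≤ 1 := by
      have : (Ideal.span {F} : Ideal A).IsPrincipal := ⟨⟨F, rfl⟩⟩
      apply Ideal.height_le_one_of_isPrincipal_of_mem_minimalPrimes (Ideal.span {F})
      rw [← hPF, Ideal.minimalPrimes_eq_subsingleton_self]
      exact Set.mem_singleton _
    rw [hht] at h2
    exact absurd h2 (by decide)
  have huK : ∀ i, algebraMap A K (C.u i) ≠ 0 := by
    intro i
    rw [Ne, IsFractionRing.to_map_eq_zero_iff]
    exact hu i
  have hgK : ∀ i, C.g i ≠ 0 := fun i h => hFg i (by rw [h]; exact dvd_zero _)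
  choose α b hαb hhom using LEV_pair C hF hu
  set a : Fin 3 → Fin 3 → K := fun i j => if i = j then 1 else
    algebraMap A K (α i j) / algebraMap A K (C.u i) with ha
  -- the numerators
  have hnum : ∀ i j, ∃ n : A, algebraMap A K (C.u i) * a i j = algebraMap A K n := by
    intro i j
    by_cases h : i = j
    · refine ⟨C.u i, ?_⟩
      simp only [ha, if_pos h, mul_one]
    · refine ⟨α i j, ?_⟩
      simp only [ha, if_neg h]
      rw [mul_div_cancel₀ _ (huK i)]
  choose n hn using hnum
  have hgen : ∀ i j, ∃ m : A, algebraMap A K (C.u i) *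
      (algebraMap A K (C.g i) * a i j - algebraMap A K (C.g j)) = algebraMap A K (F * m) := by
    intro i j
    by_cases h : i = j
    · refine ⟨0, ?_⟩
      subst h
      simp [ha]
    · refine ⟨-(b i j), ?_⟩
      have h1 := congrArg (algebraMap A K) (hαb i j)
      simp only [ha, if_neg h]
      rw [mul_sub, ← mul_assoc, mul_comm (algebraMap A K (C.u i)) (algebraMap A K (C.g i)), mul_assoc,
        mul_div_cancel₀ _ (huK i), ← map_mul (algebraMap A K) (C.u i), h1]
      simp only [map_add, map_mul, map_neg]
      ring
  choose m hm using hgen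
  refine ⟨a, ?_, ?_, ?_, ?_, ?_⟩
  · intro i j
    refine ⟨1, n i j * C.u j, ?_⟩
    rw [pow_one, map_mul, map_mul, ← hn i j]
    ring
  · intro i j
    by_cases h : i = j
    · subst h
      refine ⟨0, 0, 1, 1, isHomogeneous_one _ _, isHomogeneous_one _ _, one_ne_zero, by simp, ?_⟩
      simp [ha]
    · simp only [ha, if_neg h]
      exact hhom i j
  · intro i
    simp [ha]
  · intro i j
    refine ⟨algebraMap A K (m i j) / algebraMap A K (C.u i), ⟨1, m i j * C.u j, ?_⟩, ?_⟩
    · rw [pow_one, map_mul, map_mul]
      field_simp [huK i]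
    · have h1 := hm i j
      rw [map_mul] at h1
      rw [← mul_div_assoc, eq_div_iff (huK i), mul_comm]
      exact h1
  · intro i j l
    -- x = a i j * a j l - a i l
    set x : K := a i j * a j l - a i l with hx
    -- the polynomial y = (u i u j) x
    have hy : algebraMap A K (C.u i * C.u j) * x =
        algebraMap A K (n i j * n j l - C.u j * n i l) := by
      rw [hx, map_sub, map_mul, map_mul, map_mul, ← hn i j, ← hn j l, ← hn i l]
      ring
    have hgx : algebraMap A K (C.u i * C.u j * C.g i) * x =
        algebraMap A K (F * (m i j * n j l + C.u i * m j l - C.u j * m i l)) := by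
      have e1 := hm i j
      have e2 := hm j l
      have e3 := hm i l
      have e4 := hn j l
      have e : algebraMap A K (C.u i * C.u j * C.g i) * x =
          (algebraMap A K (C.u i) * (algebraMap A K (C.g i) * a i j - algebraMap A K (C.g j))) *
            (algebraMap A K (C.u j) * a j l) +
          algebraMap A K (C.u i) * (algebraMap A K (C.u j) *
            (algebraMap A K (C.g j) * a j l - algebraMap A K (C.g l))) -
          algebraMap A K (C.u j) * (algebraMap A K (C.u i) *
            (algebraMap A K (C.g i) * a i l - algebraMap A K (C.g l))) := by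
        rw [hx, map_mul, map_mul]
        ring
      rw [e, e1, e2, e3, e4]
      simp only [map_mul, map_add, map_sub]
      ring
    have hdv : F ∣ n i j * n j l - C.u j * n i l := by
      have h1 : C.g i * (n i j * n j l - C.u j * n i l) =
          F * (m i j * n j l + C.u i * m j l - C.u j * m i l) := by
        apply IsFractionRing.injective A K
        rw [map_mul, ← hy, ← hgx, map_mul (algebraMap A K) (C.u i * C.u j) (C.g i)]
        ring
      have h2 : F ∣ C.g i * (n i j * n j l - C.u j * n i l) := ⟨_, h1⟩
      exact (hFp.dvd_or_dvd h2).resolve_left (hFg i)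
    obtain ⟨w, hw⟩ := hdv
    have huij : algebraMap A K (C.u i * C.u j) ≠ 0 := by
      rw [map_mul]
      exact mul_ne_zero (huK i) (huK j)
    refine ⟨algebraMap A K w / algebraMap A K (C.u i * C.u j), ⟨1, w * C.u l, ?_⟩, ?_⟩
    · have h1 := huK i
      have h2 := huK j
      simp only [pow_one, map_mul]
      field_simp
    · rw [pow_one, ← mul_div_assoc, eq_div_iff huij, mul_comm x, hy, hw, map_mul]

end Pool.Agent.NOD.S2
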