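import Pool.Agent.NOD.S2.Stm

set_option autoImplicit false

namespace Pool.Agent.NOD.S2

open MvPolynomial Pool.Agent.NOD

namespace OBSaux


theorem loc_alg (s p : A) : (algebraMap A K) p ∈ Loc s := ⟨0, p, by simp⟩

theorem loc_add {s : A} {x y : K} (hx : x ∈ Loc s) (hy : y ∈ Loc s) : x + y ∈ Loc s := by
  obtain ⟨n, p, hp⟩ := hx
  obtain ⟨m, q, hq⟩ := hy
  refine ⟨n + m, s ^ m * p + s ^ n * q, ?_⟩
  rw [map_add, map_mul, map_mul, map_pow, map_pow, ← hp, ← hq]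
  ring

theorem loc_mul {s : A} {x y : K} (hx : x ∈ Loc s) (hy : y ∈ Loc s) : x * y ∈ Loc s := by
  obtain ⟨n, p, hp⟩ := hx
  obtain ⟨m, q, hq⟩ := hy
  refine ⟨n + m, p * q, ?_⟩
  rw [map_mul, ← hp, ← hq]
  ring

theorem loc_neg {s : A} {x : K} (hx : x ∈ Loc s) : -x ∈ Loc s := by
  obtain ⟨n, p, hp⟩ := hx
  refine ⟨n, -p, ?_⟩
  rw [map_neg, ← hp]
  ring

theorem loc_sub {s : A} {x y : K} (hx : x ∈ Loc s) (hy : y ∈ Loc s) : x - y ∈ Loc s := by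
  rw [sub_eq_add_neg]; exact loc_add hx (loc_neg hy)

theorem loc_mul_right {s : A} (t : A) {x : K} (hx : x ∈ Loc s) : x ∈ Loc (s * t) := by
  obtain ⟨n, p, hp⟩ := hx
  refine ⟨n, t ^ n * p, ?_⟩
  rw [map_mul, map_mul, map_pow, ← hp]
  ring

theorem loc_of_eq {s t : A} (h : s = t) {x : K} (hx : x ∈ Loc s) : x ∈ Loc t := h ▸ hx

theorem preg4 {F a b c v : A} (h : PReg ![F, a, b, c, v]) : PReg ![F, a, b, c] := by
  intro S i hi
  have h1 := h (S.map Fin.castSuccEmb) (Fin.castSuccEmb i) (by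
    rw [Finset.mem_map']; exact hi)
  have key : ∀ j : Fin 4, (![F, a, b, c, v] : Fin 5 → A) (Fin.castSuccEmb j) = ![F, a, b, c] j := by
    intro j
    fin_cases j <;> rfl
  rw [key i] at h1
  have h2 : (![F, a, b, c, v] : Fin 5 → A) '' ((S.map Fin.castSuccEmb : Finset (Fin 5)) : Set (Fin 5)) =
      ![F, a, b, c] '' (S : Set (Fin 4)) := by
    rw [Finset.coe_map, Set.image_image]
    exact Set.image_congr fun j _ => key j
  rw [h2] at h1
  exact h1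

theorem der_pow {D : K → K} (hm : ∀ x y, D (x * y) = D x * y + x * D y) (x : K) (n : ℕ) :
    D (x ^ (n + 1)) = (n + 1 : ℕ) * x ^ n * D x := by
  induction n with
  | zero => simp
  | succ n ih =>
    rw [pow_succ, hm, ih]
    push_cast
    ring

end OBSaux

open OBSaux in
theorem t_OBS (hd : S_DIV) (hD : S_DER) : S_OBS := by
  intro F zs P C k a hF hu hk hs c hc hc' l
  obtain ⟨D, hadd, hmul, halg, hloc⟩ := hD l
  obtain ⟨k', rfl⟩ : ∃ k', k = k' + 1 := ⟨k - 1, by omega⟩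
  set φ := algebraMap A K F with hφ
  set T := C.u 0 * C.u 1 * C.u 2 with hT
  -- memberships
  have m01 := hs.mem 0 1
  have m10 : a 1 0 ∈ Loc (C.u 0 * C.u 1) := loc_of_eq (mul_comm _ _) (hs.mem 1 0)
  have m12 := hs.mem 1 2
  have m21 : a 2 1 ∈ Loc (C.u 1 * C.u 2) := loc_of_eq (mul_comm _ _) (hs.mem 2 1)
  have m20 := hs.mem 2 0
  have m02 : a 0 2 ∈ Loc (C.u 2 * C.u 0) := loc_of_eq (mul_comm _ _) (hs.mem 0 2)
  have T01 : ∀ x, x ∈ Loc (C.u 0 * C.u 1) → x ∈ Loc T := fun x hx => loc_mul_right _ hx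
  have T12 : ∀ x, x ∈ Loc (C.u 1 * C.u 2) → x ∈ Loc T := fun x hx =>
    loc_of_eq (by rw [hT]; ring) (loc_mul_right (C.u 0) hx)
  have T20 : ∀ x, x ∈ Loc (C.u 2 * C.u 0) → x ∈ Loc T := fun x hx =>
    loc_of_eq (by rw [hT]; ring) (loc_mul_right (C.u 1) hx)
  -- cocycle conditions
  obtain ⟨w1, hw1, e1⟩ := hs.coc 1 2 0
  obtain ⟨w2, hw2, e2⟩ := hs.coc 2 0 1
  have hw1' : w1 ∈ Loc T := loc_of_eq (by rw [hT]; ring) hw1
  have hw2' : w2 ∈ Loc T := loc_of_eq (by rw [hT]; ring) hw2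
  rw [map_pow, ← hφ] at hc' e1 e2
  -- differentiate
  have hDF : D φ = algebraMap A K (pderiv l F) := halg F
  have h1 : a 0 1 * a 1 2 = a 0 2 + φ ^ (k' + 1) * c := by linear_combination hc'
  have h2 : D (a 0 1) * a 1 2 + a 0 1 * D (a 1 2) =
      D (a 0 2) + ((k' + 1 : ℕ) * φ ^ k' * D φ * c + φ ^ (k' + 1) * D c) := by
    have h := congrArg D h1
    rw [hmul, hadd, hmul, der_pow hmul] at h
    exact h
  have hw : D (a 0 1) * w1 + w2 * D (a 1 2) - D c * a 2 0 ∈ Loc T := by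
    refine loc_sub (loc_add ?_ ?_) ?_
    · exact loc_mul (T01 _ (hloc _ _ m01)) hw1'
    · exact loc_mul hw2' (T12 _ (hloc _ _ m12))
    · exact loc_mul (hloc _ _ hc) (T20 _ m20)
  set w := D (a 0 1) * w1 + w2 * D (a 1 2) - D c * a 2 0 with hwdef
  have h3 : ((k' + 1 : ℕ) : K) * (φ ^ k' * (D φ * (c * a 2 0))) =
      D (a 0 1) * a 1 0 + a 2 1 * D (a 1 2) + -(D (a 0 2) * a 2 0) + φ ^ (k' + 1) * w := by
    rw [hwdef]
    linear_combination (-a 2 0) * h2 + D (a 0 1) * e1 + D (a 1 2) * e2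
  have hk0 : ((k' + 1 : ℕ) : K) ≠ 0 := by exact_mod_cast Nat.succ_ne_zero k'
  set κ : K := algebraMap A K (MvPolynomial.C (((k' + 1 : ℕ) : ℂ)⁻¹)) with hκ
  have hκ1 : κ * ((k' + 1 : ℕ) : K) = 1 := by
    have h4 : ((k' + 1 : ℕ) : K) = algebraMap A K (MvPolynomial.C ((k' + 1 : ℕ) : ℂ)) := by
      simp
    rw [h4, hκ, ← map_mul, ← MvPolynomial.C_mul, inv_mul_cancel₀ (by exact_mod_cast Nat.succ_ne_zero k')]
    simp
  refine hd F C.u k' hF hu (preg4 C.reg) _ ?_ ?_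
  · exact loc_mul (loc_alg _ _) (loc_mul hc (T20 _ m20))
  · refine ⟨κ * (D (a 0 1) * a 1 0), ?_, κ * (a 2 1 * D (a 1 2)), ?_, κ * (-(D (a 0 2) * a 2 0)), ?_,
      φ ^ (k' + 1) * (κ * w), ?_, ?_⟩
    · exact loc_mul (loc_alg _ _) (loc_mul (hloc _ _ m01) m10)
    · exact loc_mul (loc_alg _ _) (loc_mul m21 (hloc _ _ m12))
    · exact loc_mul (loc_alg _ _) (loc_neg (loc_mul (hloc _ _ m02) m20))
    · exact ⟨κ * w, loc_mul (loc_alg _ _) hw, by rw [map_pow]⟩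
    · rw [← hDF]
      calc φ ^ k' * (D φ * (c * a 2 0))
          = κ * ((k' + 1 : ℕ) : K) * (φ ^ k' * (D φ * (c * a 2 0))) := by rw [hκ1, one_mul]
        _ = κ * (((k' + 1 : ℕ) : K) * (φ ^ k' * (D φ * (c * a 2 0)))) := by ring
        _ = _ := by rw [h3]; ring

end Pool.Agent.NOD.S2
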