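import Pool.Agent.NOD.S2.Stm

set_option autoImplicit false
set_option linter.unusedSectionVars false
set_option linter.unusedVariables false

namespace Pool.Agent.NOD.S2

open MvPolynomial Pool.Agent.NOD

theorem QW_mem3 {a b c y : A} :
    y ∈ Ideal.span {a, b, c} ↔ ∃ α β γ : A, y = α * a + β * b + γ * c := by
  rw [Ideal.mem_span_insert]
  constructor
  · rintro ⟨α, z, hz, rfl⟩
    obtain ⟨β, γ, rfl⟩ := Ideal.mem_span_pair.1 hz
    exact ⟨α, β, γ, by ring⟩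
  · rintro ⟨α, β, γ, rfl⟩
    exact ⟨α, β * b + γ * c, Ideal.mem_span_pair.2 ⟨β, γ, rfl⟩, by ring⟩

theorem QW_mem4 {a b c e y : A} :
    y ∈ Ideal.span {a, b, c, e} ↔ ∃ α β γ δ : A, y = α * a + β * b + γ * c + δ * e := by
  rw [Ideal.mem_span_insert]
  constructor
  · rintro ⟨α, z, hz, rfl⟩
    obtain ⟨β, γ, δ, rfl⟩ := QW_mem3.1 hz
    exact ⟨α, β, γ, δ, by ring⟩
  · rintro ⟨α, β, γ, δ, rfl⟩
    exact ⟨α, β * b + γ * c + δ * e, QW_mem3.2 ⟨β, γ, δ, rfl⟩, by ring⟩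

theorem QW_cancel {a b c f y : A} {M n : ℕ} (h : NZD (Ideal.span {a, b, c}) (f ^ M))
    (hy : ∃ α β γ δ : A, f ^ M * y = α * a + β * b + γ * c + δ * f ^ (M + n)) :
    ∃ α β γ δ : A, y = α * a + β * b + γ * c + δ * f ^ n := by
  obtain ⟨α, β, γ, δ, hy⟩ := hy
  have h1 : f ^ M * (y - δ * f ^ n) ∈ Ideal.span {a, b, c} := by
    rw [QW_mem3]
    refine ⟨α, β, γ, ?_⟩
    rw [mul_sub, hy, pow_add]
    ring
  obtain ⟨α', β', γ', h2⟩ := QW_mem3.1 (h _ h1)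
  exact ⟨α', β', γ', δ, by rw [← h2]; ring⟩

/-- raising the exponent -/
theorem QW_up {s : A} {x : K} (hx : x ∈ Loc s) :
    ∃ n₀ : ℕ, ∀ N, n₀ ≤ N → ∃ p : A, algebraMap A K s ^ N * x = algebraMap A K p := by
  obtain ⟨m, p, hp⟩ := hx
  refine ⟨m, fun N hN => ⟨s ^ (N - m) * p, ?_⟩⟩
  rw [map_mul, map_pow, ← hp, ← mul_assoc, ← pow_add, Nat.sub_add_cancel hN]

theorem t_QW (hp : S_POW) : S_QW := by
  intro F u n p x hu hreg hx hW
  obtain ⟨y01, h01, y12, h12, y20, h20, w, ⟨y, hy, rfl⟩, hsum⟩ := hW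
  obtain ⟨n1, k1⟩ := QW_up h01
  obtain ⟨n2, k2⟩ := QW_up h12
  obtain ⟨n3, k3⟩ := QW_up h20
  obtain ⟨n4, k4⟩ := QW_up hy
  obtain ⟨M, hM⟩ : ∃ M, M = n1 + n2 + n3 + n4 := ⟨_, rfl⟩
  obtain ⟨p1, e1⟩ := k1 (M + n) (by omega)
  obtain ⟨p2, e2⟩ := k2 (M + n) (by omega)
  obtain ⟨p3, e3⟩ := k3 (M + n) (by omega)
  obtain ⟨q, e4⟩ := k4 (M + n) (by omega)
  have hinj : Function.Injective (algebraMap A K) := IsFractionRing.injective A K
  have hmain : (u 0 * u 1 * u 2) ^ M * p = q * F + p2 * u 0 ^ (M + n) + p3 * u 1 ^ (M + n) +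
      p1 * u 2 ^ (M + n) := by
    apply hinj
    simp only [map_mul, map_add, map_pow] at hx e1 e2 e3 e4 ⊢
    rw [← hx, ← e1, ← e2, ← e3, ← e4, hsum]
    simp only [pow_one, pow_add, mul_pow]
    ring
  -- the nonzerodivisors
  have hA : NZD (Ideal.span {F, u 1 ^ (M + n), u 2 ^ (M + n)}) (u 0 ^ M) := by
    have h1 := hp 4 ![F, u 0, u 1, u 2] ![1, M, M + n, M + n] hreg {0, 2, 3} 1 (by decide)
    have h2 : (fun i => (![F, u 0, u 1, u 2] : Fin 4 → A) i ^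
        (![1, M, M + n, M + n] : Fin 4 → ℕ) i) '' (({0, 2, 3} : Finset (Fin 4)) : Set (Fin 4)) =
        {F, u 1 ^ (M + n), u 2 ^ (M + n)} := by
      simp only [Finset.coe_insert, Finset.coe_singleton, Set.image_insert_eq, Set.image_singleton]
      simp
    rw [h2] at h1
    exact h1
  have hB : NZD (Ideal.span {F, u 0 ^ n, u 2 ^ (M + n)}) (u 1 ^ M) := by
    have h1 := hp 4 ![F, u 0, u 1, u 2] ![1, n, M, M + n] hreg {0, 1, 3} 2 (by decide)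
    have h2 : (fun i => (![F, u 0, u 1, u 2] : Fin 4 → A) i ^
        (![1, n, M, M + n] : Fin 4 → ℕ) i) '' (({0, 1, 3} : Finset (Fin 4)) : Set (Fin 4)) =
        {F, u 0 ^ n, u 2 ^ (M + n)} := by
      simp only [Finset.coe_insert, Finset.coe_singleton, Set.image_insert_eq, Set.image_singleton]
      simp
    rw [h2] at h1
    exact h1
  have hC : NZD (Ideal.span {F, u 0 ^ n, u 1 ^ n}) (u 2 ^ M) := by
    have h1 := hp 4 ![F, u 0, u 1, u 2] ![1, n, n, M] hreg {0, 1, 2} 3 (by decide)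
    have h2 : (fun i => (![F, u 0, u 1, u 2] : Fin 4 → A) i ^
        (![1, n, n, M] : Fin 4 → ℕ) i) '' (({0, 1, 2} : Finset (Fin 4)) : Set (Fin 4)) =
        {F, u 0 ^ n, u 1 ^ n} := by
      simp only [Finset.coe_insert, Finset.coe_singleton, Set.image_insert_eq, Set.image_singleton]
      simp
    rw [h2] at h1
    exact h1
  obtain ⟨α, β, γ, δ, c1⟩ := QW_cancel (y := u 1 ^ M * u 2 ^ M * p) (n := n) hA
    ⟨q, p3, p1, p2, by rw [← mul_assoc, ← mul_assoc, ← mul_pow, ← mul_pow, hmain]; ring⟩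
  obtain ⟨α', β', γ', δ', c2⟩ := QW_cancel (y := u 2 ^ M * p) (n := n) hB
    ⟨α, δ, γ, β, by rw [← mul_assoc, c1]; ring⟩
  obtain ⟨α'', β'', γ'', δ'', c3⟩ := QW_cancel (y := p) (n := n) hC
    ⟨α', β', δ', γ', by rw [c2]; ring⟩
  unfold Qn
  rw [QW_mem4]
  exact ⟨α'', β'', γ'', δ'', c3⟩

end Pool.Agent.NOD.S2
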