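import Pool.Agent.NOD.S2.Stm

set_option autoImplicit false
set_option linter.unusedSectionVars false
set_option linter.unusedVariables false

namespace Pool.Agent.NOD.S2

open MvPolynomial Pool.Agent.NOD

theorem RA_nzd (hp : S_POW) {F v : A} {u : Fin 3 → A} (h : PReg ![F, u 0, u 1, u 2, v])
    (n r : ℕ) : NZD (Qn F u n) (v ^ r) := by
  have h1 := hp 5 ![F, u 0, u 1, u 2, v] ![1, n, n, n, r] h {0, 1, 2, 3} 4 (by decide)
  have h2 : (fun i => (![F, u 0, u 1, u 2, v] : Fin 5 → A) i ^ (![1, n, n, n, r] : Fin 5 → ℕ) i) ''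
      (({0, 1, 2, 3} : Finset (Fin 5)) : Set (Fin 5)) = {F, u 0 ^ n, u 1 ^ n, u 2 ^ n} := by
    simp only [Finset.coe_insert, Finset.coe_singleton, Set.image_insert_eq, Set.image_singleton]
    simp
  rw [h2] at h1
  exact h1

theorem t_RA (hp : S_POW) (hj : S_JSAT) : S_RA := by
  intro d F zs P C n p hd hF hs hl f m hf hz
  obtain ⟨r, hr⟩ := hj d F zs C.v f m hd hF hs C.v_hom C.v_ne hf hz
  have h1 : ∀ y ∈ Ideal.span (Set.range fun i : Fin 5 => pderiv i F), y * p ∈ Qn F C.u n := by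
    intro y hy
    refine Submodule.span_induction (p := fun y _ => y * p ∈ Qn F C.u n) ?_ ?_ ?_ ?_ hy
    · rintro _ ⟨l, rfl⟩
      exact hl l
    · rw [zero_mul]
      exact Ideal.zero_mem _
    · intro a b _ _ ha hb
      rw [add_mul]
      exact Ideal.add_mem _ ha hb
    · intro a b _ hb
      rw [smul_eq_mul, mul_assoc]
      exact Ideal.mul_mem_left _ _ hb
  have h2 := h1 _ hr
  rw [mul_assoc] at h2
  exact RA_nzd hp C.reg n r _ h2

end Pool.Agent.NOD.S2
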