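import Pool.Agent.NOD.S2.Stm

/-!
# Project NOD, section S2, piece RB
-/

set_option autoImplicit false

namespace Pool.Agent.NOD.S2

open MvPolynomial Pool.Agent.NOD

namespace RBP

/-- Evaluation of forms of degree `n` at the points. -/
noncomputable def ev (zs : Finset (Fin 5 → ℂ)) (n : ℕ) :
    homogeneousSubmodule (Fin 5) ℂ n →ₗ[ℂ] (zs → ℂ) :=
  (LinearMap.pi fun z : zs => (aeval (z : Fin 5 → ℂ) : A →ₐ[ℂ] ℂ).toLinearMap) ∘ₗ
    (homogeneousSubmodule (Fin 5) ℂ n).subtype

theorem ev_apply (zs : Finset (Fin 5 → ℂ)) (n : ℕ) (g : homogeneousSubmodule (Fin 5) ℂ n)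
    (z : zs) : ev zs n g z = eval (z : Fin 5 → ℂ) (g : A) := by
  change aeval (z : Fin 5 → ℂ) (g : A) = _
  rw [← coe_aeval_eq_eval]
  rfl

end RBP

open RBP in
theorem t_RB : S_RB := by
  classical
  intro zs v n₁ n₀ hv hvz hn hrel z hz
  have hsurj : LinearMap.range (ev zs n₀) = ⊤ := by
    by_contra hne
    obtain ⟨f, hf0, hf⟩ := Submodule.exists_le_ker_of_lt_top _ (lt_top_iff_ne_top.2 hne)
    apply hrel
    refine ⟨fun w => if h : w ∈ zs then
      f (Pi.single (⟨w, h⟩ : zs) 1) * (eval w v) ^ (n₀ - n₁) else 0, ?_, ?_⟩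
    · by_contra hall
      push Not at hall
      apply hf0
      apply LinearMap.pi_ext'
      intro w
      ext
      have h1 := hall w.1 w.2
      simp only [w.2, dite_true] at h1
      have h2 : f (Pi.single w 1) = 0 := by
        rcases mul_eq_zero.1 h1 with h | h
        · exact h
        · exact absurd h (pow_ne_zero _ (hvz _ w.2))
      simpa using h2
    · intro g hg
      have hvg : (v ^ (n₀ - n₁) * g).IsHomogeneous n₀ := by
        have := (hv.pow (n₀ - n₁)).mul hg
        rwa [one_mul, Nat.sub_add_cancel hn] at this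
      have h0 : f (ev zs n₀ ⟨v ^ (n₀ - n₁) * g, hvg⟩) = 0 := hf ⟨_, rfl⟩
      have hdec : ev zs n₀ ⟨v ^ (n₀ - n₁) * g, hvg⟩ =
          ∑ w : zs, (eval (w : Fin 5 → ℂ) (v ^ (n₀ - n₁) * g)) • (Pi.single w 1 : zs → ℂ) := by
        ext w
        rw [ev_apply, Finset.sum_apply]
        simp [Pi.single_apply]
      rw [hdec, map_sum] at h0
      rw [← Finset.sum_coe_sort zs, ← h0]
      refine Finset.sum_congr rfl fun w _ => ?_
      simp only [w.2, dite_true, map_smul, map_mul, map_pow, smul_eq_mul]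
      ring
  obtain ⟨h, hh⟩ : ∃ h, ev zs n₀ h = Pi.single (⟨z, hz⟩ : zs) 1 := by
    have : (Pi.single (⟨z, hz⟩ : zs) 1 : zs → ℂ) ∈ LinearMap.range (ev zs n₀) := by
      rw [hsurj]; trivial
    exact this
  refine ⟨h, h.2, ?_, ?_⟩
  · have := congrFun hh ⟨z, hz⟩
    rw [ev_apply, Pi.single_eq_same] at this
    exact this
  · intro w hw hwz
    have := congrFun hh ⟨w, hw⟩
    rw [ev_apply, Pi.single_eq_of_ne (by
      intro h
      exact hwz (congrArg Subtype.val h))] at this
    exact this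

end Pool.Agent.NOD.S2
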