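import Pool.Agent.NOD.S2.Stm

set_option autoImplicit false

namespace Pool.Agent.NOD.S2

open MvPolynomial Pool.Agent.NOD

namespace RCaux

attribute [local instance] MvPolynomial.gradedAlgebra

/-- components of a product with a form -/
theorem comp_mul {v g : A} {m : ℕ} (hv : v.IsHomogeneous m) (n : ℕ) :
    homogeneousComponent n (v * g) = if m ≤ n then v * homogeneousComponent (n - m) g else 0 := by
  have h1 : ∀ j, homogeneousComponent n (v * homogeneousComponent j g) =
      if n = m + j then v * homogeneousComponent j g else 0 := fun j =>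
    homogeneousComponent_of_mem (hv.mul (homogeneousComponent_isHomogeneous j g))
  conv_lhs => rw [← sum_homogeneousComponent g, Finset.mul_sum, map_sum]
  simp_rw [h1]
  split_ifs with h
  · obtain ⟨r, rfl⟩ := Nat.exists_eq_add_of_le h
    have h2 : ∀ j, (m + r = m + j) ↔ (r = j) := fun j => by omega
    simp_rw [h2]
    rw [Nat.add_sub_cancel_left, Finset.sum_ite_eq]
    split_ifs with h3
    · rfl
    · rw [Finset.mem_range, not_lt] at h3
      rw [homogeneousComponent_eq_zero r g (by omega), mul_zero]
  · refine Finset.sum_eq_zero fun j _ => ?_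
    rw [if_neg (by omega)]

theorem comp_mem {S : Set A} (hS : ∀ s ∈ S, ∃ m, s.IsHomogeneous m) {f : A}
    (hf : f ∈ Ideal.span S) (n : ℕ) : homogeneousComponent n f ∈ Ideal.span S := by
  have h1 : (Ideal.span S).IsHomogeneous (homogeneousSubmodule (Fin 5) ℂ) := by
    refine Ideal.homogeneous_span _ S fun s hs => ?_
    obtain ⟨m, hm⟩ := hS s hs
    exact ⟨m, hm⟩
  exact (mem_iff_homogeneousComponent_mem h1 f).1 hf n

end RCaux

open RCaux in
theorem t_RC (hp : S_POW) (hs : S_SOC) : S_RC := by
  intro d F zs P C n z hd hF hz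
  rcases Nat.eq_zero_or_pos n with hn | hn
  · intro i g _ _ _
    subst hn
    have h1 : (1 : A) ∈ Qn F C.u 0 := Ideal.subset_span (by simp)
    have h2 := Ideal.mul_mem_left (Qn F C.u 0) g h1
    rwa [mul_one] at h2
  -- the sequence
  set f : Fin 5 → A := ![F, C.u 0 ^ n, C.u 1 ^ n, C.u 2 ^ n, C.v] with hf
  set b : Fin 5 → ℕ := ![d, n * C.del 0, n * C.del 1, n * C.del 2, 1] with hb
  have hreg : PReg f := by
    have h1 := hp 5 ![F, C.u 0, C.u 1, C.u 2, C.v] ![1, n, n, n, 1] C.reg
    have h2 : (fun i => (![F, C.u 0, C.u 1, C.u 2, C.v] : Fin 5 → A) i ^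
        (![1, n, n, n, 1] : Fin 5 → ℕ) i) = f := by
      funext i
      fin_cases i <;> simp [hf]
    rw [h2] at h1
    exact h1
  have hbpos : ∀ j, 0 < b j := by
    intro j
    have := C.del_pos
    fin_cases j
    · show 0 < d; omega
    · exact Nat.mul_pos hn (this 0)
    · exact Nat.mul_pos hn (this 1)
    · exact Nat.mul_pos hn (this 2)
    · exact Nat.one_pos
  have hfh : ∀ j, (f j).IsHomogeneous (b j) := by
    intro j
    fin_cases j
    · exact hF
    · have := (C.u_hom 0).pow n
      rw [mul_comm] at this; exact this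
    · have := (C.u_hom 1).pow n
      rw [mul_comm] at this; exact this
    · have := (C.u_hom 2).pow n
      rw [mul_comm] at this; exact this
    · exact C.v_hom
  have hvz : eval z C.v ≠ 0 := C.v_ne z hz
  -- `range f = insert v Q`
  have hrange : Set.range f = insert C.v {F, C.u 0 ^ n, C.u 1 ^ n, C.u 2 ^ n} := by
    ext x
    simp only [Set.mem_range, Set.mem_insert_iff, Set.mem_singleton_iff]
    constructor
    · rintro ⟨j, rfl⟩
      fin_cases j <;> simp [hf]
    · rintro (rfl | rfl | rfl | rfl | rfl)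
      · exact ⟨4, rfl⟩
      · exact ⟨0, rfl⟩
      · exact ⟨1, rfl⟩
      · exact ⟨2, rfl⟩
      · exact ⟨3, rfl⟩
  have hQsub : Qn F C.u n ≤ Ideal.span (Set.range f) := by
    rw [hrange]
    exact Ideal.span_mono (Set.subset_insert _ _)
  have hvmem : C.v ∈ Ideal.span (Set.range f) := by
    rw [hrange]
    exact Ideal.subset_span (Set.mem_insert _ _)
  -- `v` is a nonzerodivisor modulo `Q`
  have hvn : NZD (Qn F C.u n) C.v := by
    have h1 := hreg {0, 1, 2, 3} 4 (by decide)
    have h2 : f '' (({0, 1, 2, 3} : Finset (Fin 5)) : Set (Fin 5)) =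
        {F, C.u 0 ^ n, C.u 1 ^ n, C.u 2 ^ n} := by
      simp only [Finset.coe_insert, Finset.coe_singleton, Set.image_insert_eq, Set.image_singleton]
      rfl
    rw [h2] at h1
    exact h1
  have hQh : ∀ s ∈ ({F, C.u 0 ^ n, C.u 1 ^ n, C.u 2 ^ n} : Set A), ∃ m, s.IsHomogeneous m := by
    intro s hs'
    simp only [Set.mem_insert_iff, Set.mem_singleton_iff] at hs'
    rcases hs' with rfl | rfl | rfl | rfl
    · exact ⟨_, hfh 0⟩
    · exact ⟨_, hfh 1⟩
    · exact ⟨_, hfh 2⟩
    · exact ⟨_, hfh 3⟩
  intro i
  induction i with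
  | zero => ?_
  | succ i ih => ?_
  all_goals
    intro g hg hi hfg
    -- `g` is in `Q + (v)`
    have hgm : g ∈ Ideal.span (Set.range f) := by
      by_contra hno
      have hX : ∀ l : Fin 5, (X l : A) * g ∈ Ideal.span (Set.range f) := by
        intro l
        have h1 : (X l - MvPolynomial.C (z l / eval z C.v) * C.v : A).IsHomogeneous 1 := by
          refine (isHomogeneous_X _ _).sub ?_
          have := (isHomogeneous_C (Fin 5) (z l / eval z C.v)).mul C.v_hom
          rwa [zero_add] at this
        have h2 : eval z (X l - MvPolynomial.C (z l / eval z C.v) * C.v : A) = 0 := by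
          simp [div_mul_cancel₀ _ hvz]
        have h3 := hQsub (hfg _ 1 h1 h2)
        have h4 : (X l : A) * g = (X l - MvPolynomial.C (z l / eval z C.v) * C.v) * g +
            (MvPolynomial.C (z l / eval z C.v) * g) * C.v := by ring
        rw [h4]
        exact Ideal.add_mem _ h3 (Ideal.mul_mem_left _ _ hvmem)
      have h5 := hs f b _ g hbpos hfh hreg hg hX hno
      have h6 : ∑ j, (b j - 1) = (d - 1) + (n * C.del 0 - 1) + (n * C.del 1 - 1) +
          (n * C.del 2 - 1) + (1 - 1) := by
        rw [Fin.sum_univ_five]; rfl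
      have h7 : n * ∑ j, C.del j = n * C.del 0 + n * C.del 1 + n * C.del 2 := by
        rw [Fin.sum_univ_three]; ring
      have h8 : 0 < n * C.del 0 := Nat.mul_pos hn (C.del_pos 0)
      have h9 : 0 < n * C.del 1 := Nat.mul_pos hn (C.del_pos 1)
      have h10 : 0 < n * C.del 2 := Nat.mul_pos hn (C.del_pos 2)
      rw [h6] at h5
      rw [h7] at hi
      omega
    rw [hrange, Ideal.span_insert, Submodule.mem_sup] at hgm
    obtain ⟨y, hy, q, hq, hyq⟩ := hgm
    obtain ⟨g'', rfl⟩ := Ideal.mem_span_singleton'.1 hy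
  · -- degree zero
    have h1 : g = homogeneousComponent 0 (C.v * g'') + homogeneousComponent 0 q := by
      rw [← map_add, mul_comm C.v, hyq]
      exact (homogeneousComponent_eq_self hg).symm
    rw [comp_mul C.v_hom, if_neg (by omega), zero_add] at h1
    rw [h1]
    exact comp_mem hQh hq 0
  · -- positive degree
    have h1 : g = homogeneousComponent (i + 1) (C.v * g'') + homogeneousComponent (i + 1) q := by
      rw [← map_add, mul_comm C.v, hyq]
      exact (homogeneousComponent_eq_self hg).symm
    rw [comp_mul C.v_hom, if_pos (by omega), Nat.add_sub_cancel] at h1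
    set g' := homogeneousComponent i g'' with hg'
    set q' := homogeneousComponent (i + 1) q with hq'
    have hq'm : q' ∈ Qn F C.u n := comp_mem hQh hq _
    have hg'h : g'.IsHomogeneous i := homogeneousComponent_isHomogeneous _ _
    have h2 : g' ∈ Qn F C.u n := by
      refine ih g' hg'h (by omega) ?_
      intro f₁ m hf₁ hf₁z
      have h3 := hfg f₁ m hf₁ hf₁z
      refine hvn _ ?_
      have h4 : C.v * (f₁ * g') = f₁ * g - f₁ * q' := by rw [h1]; ring
      rw [h4]
      exact Ideal.sub_mem _ h3 (Ideal.mul_mem_left _ _ hq'm)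
    rw [h1]
    exact Ideal.add_mem _ (Ideal.mul_mem_left _ _ h2) hq'm

end Pool.Agent.NOD.S2
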