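import Pool.Agent.NOD.S2.EXT

set_option autoImplicit false

/-! Piece STEP of project NOD, section S2 (helper55). -/

namespace Pool.Agent.NOD.S2

open MvPolynomial Pool.Agent.NOD

namespace EX

theorem comp_mul_hom {m : ℕ} {q : A} (hq : q.IsHomogeneous m) (p : A) (n : ℕ) :
    homogeneousComponent (n + m) (p * q) = homogeneousComponent n p * q := by
  conv_lhs => rw [← sum_homogeneousComponent p, Finset.sum_mul, map_sum]
  have h1 : ∀ i ∈ Finset.range (p.totalDegree + 1),
      homogeneousComponent (n + m) (homogeneousComponent i p * q) =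
        if i = n then homogeneousComponent n p * q else 0 := by
    intro i _
    have h2 := (homogeneousComponent_isHomogeneous i p).mul hq
    by_cases h : i = n
    · subst h
      rw [if_pos rfl]
      rw [homogeneousComponent_of_mem h2, if_pos rfl]
    · rw [if_neg h, homogeneousComponent_of_mem h2, if_neg]
      omega
  rw [Finset.sum_congr rfl h1, Finset.sum_ite_eq' (Finset.range (p.totalDegree + 1)) n
    (fun _ => homogeneousComponent n p * q)]
  split_ifs with h
  · rfl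
  · rw [homogeneousComponent_eq_zero, zero_mul]
    rw [Finset.mem_range] at h
    omega

theorem hom_of_mul {m N i : ℕ} {p q : A} (hq : q.IsHomogeneous m) (h0 : q ≠ 0)
    (hpq : (p * q).IsHomogeneous N) (hN : i + m = N) : p.IsHomogeneous i := by
  have h1 : homogeneousComponent (i + m) (p * q) = p * q := by
    rw [homogeneousComponent_of_mem hpq, if_pos hN]
  rw [comp_mul_hom hq] at h1
  have h2 := mul_right_cancel₀ h0 h1
  rw [← h2]
  exact homogeneousComponent_isHomogeneous i p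

theorem hom_div {t : ℤ} {e : ℕ} {f : A} {c : K} (hf : f.IsHomogeneous e) (h0 : f ≠ 0)
    (h : HomK t (algebraMap A K f * c)) : HomK (t - e) c := by
  obtain ⟨n, m, p, q, hp, hq, hq0, hd, he⟩ := h
  refine ⟨n, e + m, p, f * q, hp, hf.mul hq, mul_ne_zero h0 hq0, ?_, ?_⟩
  · push_cast
    omega
  · rw [map_mul, ← he]
    ring

theorem preg4 {F v : A} {u : Fin 3 → A} (h : PReg ![F, u 0, u 1, u 2, v]) :
    PReg ![F, u 0, u 1, u 2] := by
  intro S i hi
  have h1 := h (S.map Fin.castSuccEmb) (Fin.castSucc i) (by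
    rw [Finset.mem_map]
    rintro ⟨j, hj, hji⟩
    have : j = i := Fin.castSucc_injective _ hji
    exact hi (this ▸ hj))
  have e : ∀ j : Fin 4, ![F, u 0, u 1, u 2, v] (Fin.castSucc j) = ![F, u 0, u 1, u 2] j := by
    intro j
    fin_cases j <;> rfl
  have e2 : ![F, u 0, u 1, u 2, v] '' ((S.map Fin.castSuccEmb : Finset (Fin 5)) : Set (Fin 5)) =
      ![F, u 0, u 1, u 2] '' (S : Set (Fin 4)) := by
    rw [Finset.coe_map, Set.image_image]
    exact Set.image_congr fun j _ => e j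
  rw [e, e2] at h1
  exact h1

end EX

open EX

theorem t_STEP (hr : S_RR) (ho : S_OBS) (hq : S_QW) (hh : S_HOM) (hc : S_COR) : S_STEP := by
  intro d F zs P C k a hd hF hS hR h0 hu hk hSys
  obtain ⟨c, hcl, hce⟩ := hSys.coc 0 1 2
  -- degrees
  have hc2 : HomK (((C.gam 2 : ℤ) - C.gam 0) - ((k * d : ℕ) : ℤ)) c := by
    refine hom_div (f := F ^ k) (e := k * d) ?_ (pow_ne_zero k h0) ?_
    · have := hF.pow k
      rwa [mul_comm] at this
    · rw [← hce]
      have h1 := hom_mul (hSys.hom 0 1) (hSys.hom 1 2)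
      have e : ((C.gam 1 : ℤ) - C.gam 0) + ((C.gam 2 : ℤ) - C.gam 1) = (C.gam 2 : ℤ) - C.gam 0 := by
        ring
      rw [e] at h1
      have h2 := hom_add h1 (hom_neg (hSys.hom 0 2))
      rwa [← sub_eq_add_neg] at h2
  have hc1 : HomK (-((k * d : ℕ) : ℤ)) (c * a 2 0) := by
    have h1 := hom_mul hc2 (hSys.hom 2 0)
    have e : ((C.gam 2 : ℤ) - C.gam 0) - ((k * d : ℕ) : ℤ) + ((C.gam 0 : ℤ) - C.gam 2) =
        -((k * d : ℕ) : ℤ) := by ring
    rwa [e] at h1
  have hc1l : c * a 2 0 ∈ Loc (C.u 0 * C.u 1 * C.u 2) :=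
    loc_mul hcl (loc_mono 1 ⟨C.u 1, by ring⟩ (hSys.mem 2 0))
  set c1 := c * a 2 0 with hc1e
  obtain ⟨n0, p0, hp0⟩ := hc1l
  -- enlarge the exponent
  set S : ℕ := ∑ j, C.del j with hSd
  have hS1 : 1 ≤ S := by
    have h1 := Finset.single_le_sum (f := C.del) (fun j _ => Nat.zero_le _) (Finset.mem_univ 0)
    exact (C.del_pos 0).trans_le h1
  set n : ℕ := n0 + k * d with hn
  set p : A := (C.u 0 * C.u 1 * C.u 2) ^ (k * d) * p0 with hp
  have hpe : algebraMap A K (C.u 0 * C.u 1 * C.u 2) ^ n * c1 = algebraMap A K p := by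
    have h1 : algebraMap A K p =
        algebraMap A K (C.u 0 * C.u 1 * C.u 2) ^ (k * d) * algebraMap A K p0 := by
      rw [hp, map_mul (algebraMap A K) ((C.u 0 * C.u 1 * C.u 2) ^ (k * d)) p0,
        map_pow (algebraMap A K) (C.u 0 * C.u 1 * C.u 2) (k * d)]
    rw [h1, ← hp0, hn]
    ring
  obtain ⟨i, hi⟩ : ∃ i, i + k * d = n * S := by
    refine ⟨n * S - k * d, Nat.sub_add_cancel ?_⟩
    calc k * d ≤ n := by omega
      _ = n * 1 := (mul_one n).symm
      _ ≤ n * S := Nat.mul_le_mul_left n hS1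
  have hU : (C.u 0 * C.u 1 * C.u 2).IsHomogeneous S := by
    have h1 := ((C.u_hom 0).mul (C.u_hom 1)).mul (C.u_hom 2)
    rw [hSd, Fin.sum_univ_three]
    exact h1
  have hU0 : C.u 0 * C.u 1 * C.u 2 ≠ 0 := mul_ne_zero (mul_ne_zero (hu 0) (hu 1)) (hu 2)
  have hpi : p.IsHomogeneous i := by
    obtain ⟨N, M, p', q', hp', hq', hq0, hdeg, he⟩ := hc1
    have h1 : p * q' = (C.u 0 * C.u 1 * C.u 2) ^ n * p' := by
      apply FaithfulSMul.algebraMap_injective A K
      rw [map_mul (algebraMap A K) p q', map_mul (algebraMap A K) ((C.u 0 * C.u 1 * C.u 2) ^ n) p',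
        map_pow (algebraMap A K) (C.u 0 * C.u 1 * C.u 2) n, ← hpe, ← he]
      ring
    refine hom_of_mul (N := n * S + N) hq' hq0 ?_ ?_
    · rw [h1]
      have h2 := (hU.pow n).mul hp'
      rwa [mul_comm S n] at h2
    · omega
  have hreg := preg4 C.reg
  have hP : ∀ l : Fin 5, pderiv l F * p ∈ Qn F C.u n := by
    intro l
    refine hq F C.u n (pderiv l F * p) (algebraMap A K (pderiv l F) * c1) hu hreg ?_
      (ho F zs P C k a h0 hu hk hSys c hcl hce l)
    rw [map_mul (algebraMap A K) (pderiv l F) p, ← hpe]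
    ring
  have hpQ := hr d F zs P C k n i p hd hF hS hR hk hpi hi hP
  obtain ⟨y01, h01, y12, h12, y20, h20, w, hw, g01, g12, g20, he⟩ :=
    hh F C.u d C.del n i (-((k * d : ℕ) : ℤ)) p c1 hu hF C.u_hom hpi (by
      have h3 : (i : ℤ) + ((k * d : ℕ) : ℤ) = (n : ℤ) * (S : ℤ) := by exact_mod_cast hi
      have h4 : (S : ℤ) = ∑ j, (C.del j : ℤ) := by
        rw [hSd]
        push_cast
        rfl
      rw [← h4]
      linarith) hpe hpQ
  exact hc d F zs P C k a hF h0 hu hk hSys c hcl hce y01 h01 y12 h12 y20 h20 w hw g01 g12 g20 he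

end Pool.Agent.NOD.S2
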