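import Pool.Agent.NOD.S2.Stm
import Pool.Agent.NOD.LocB
import Pool.Agent.NOD.S2.CH2
import Pool.Agent.NOD.S2.CH2H
import Pool.Agent.NOD.S2.COR
import Pool.Agent.NOD.S2.DER
import Pool.Agent.NOD.S2.DIV
import Pool.Agent.NOD.S2.EXT
import Pool.Agent.NOD.S2.HOM
import Pool.Agent.NOD.S2.LEV
import Pool.Agent.NOD.S2.OBS
import Pool.Agent.NOD.S2.QW
import Pool.Agent.NOD.S2.RA
import Pool.Agent.NOD.S2.RB
import Pool.Agent.NOD.S2.RC
import Pool.Agent.NOD.S2.RR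
import Pool.Agent.NOD.S2.STEP

/-!
# Project NOD, section S2 (helper85): the assembly

Pieces by helper70 (CH2, CH2H), helper62 (COR, QW, RA, RR), helper12 (DER, DIV, HOM, RB), helper55 (EXT, STEP),
helper36 (LEV), helper14 (OBS, RC).
-/

set_option autoImplicit false

namespace Pool.Agent.NOD.S2

open MvPolynomial Pool.Agent.NOD

theorem t_SYS0 (hi : S_IRR) (hs : S_STEP) (hl : S_LEV) : S_SYS := by
  intro d F zs P C hd hF hS hP _ hFP hht hR
  have hprime : Prime F := hi d F zs hd hF hS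
  have hu : ∀ i, C.u i ≠ 0 := fun i h => C.u_not i (h ▸ P.zero_mem)
  obtain ⟨a1, ha1⟩ := hl d F zs P C hF hprime hP hFP hht
  have step : ∀ (k : ℕ) (a : {a : Fin 3 → Fin 3 → K // Sys F C (k + 1) a}),
      ∃ a' : {a : Fin 3 → Fin 3 → K // Sys F C (k + 1 + 1) a},
        ∀ i j, a'.1 i j - a.1 i j ∈ FLoc (F ^ (k + 1)) (C.u i * C.u j) := by
    intro k a
    obtain ⟨a', h1, h2⟩ := hs d F zs P C (k + 1) a.1 hd hF hS hR hprime.ne_zero hu (by omega) a.2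
    exact ⟨⟨a', h1⟩, h2⟩
  choose nxt hnxt using step
  let sq : (k : ℕ) → {a : Fin 3 → Fin 3 → K // Sys F C (k + 1) a} :=
    fun k => Nat.rec ⟨a1, ha1⟩ (fun k a => nxt k a) k
  refine ⟨fun k => match k with
    | 0 => a1
    | k + 1 => (sq k).1, ?_, ?_⟩
  · intro k hk
    obtain ⟨k, rfl⟩ : ∃ m, k = m + 1 := ⟨k - 1, by omega⟩
    exact (sq k).2
  · intro k hk
    obtain ⟨k, rfl⟩ : ∃ m, k = m + 1 := ⟨k - 1, by omega⟩
    exact hnxt k (sq k)

/-- Section S2: the systems of transition functions of all levels. -/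
theorem t_SYS (hi : S_IRR) (hp : S_POW) (hsoc : S_SOC) (hj : S_JSAT) : S_SYS :=
  t_SYS0 hi
    (t_STEP (t_RR hp (t_RA hp hj) t_RB (t_RC hp hsoc)) (t_OBS (t_DIV (t_CH2 hp)) t_DER)
      (t_QW hp) t_HOM (t_COR t_EXT)) t_LEV

end Pool.Agent.NOD.S2
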