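import Pool.Agent.NOD.S2.Stm
import Pool.Agent.NOD.S2.RA

set_option autoImplicit false
set_option linter.unusedSectionVars false
set_option linter.unusedVariables false

namespace Pool.Agent.NOD.S2

open MvPolynomial Pool.Agent.NOD

theorem t_RR (hp : S_POW) (ha : S_RA) (hb : S_RB) (hc : S_RC) : S_RR := by
  classical
  intro d F zs P C k n i p hd hF hs hrel hk hpi hdeg hl
  obtain ⟨n₀, hn₀⟩ : ∃ n₀, n₀ + 5 = (k + 1) * d := by
    refine ⟨(k + 1) * d - 5, Nat.sub_add_cancel ?_⟩
    nlinarith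
  have hn₁ : 2 * d - 5 ≤ n₀ := by
    have : 2 * d ≤ (k + 1) * d := Nat.mul_le_mul_right _ (by omega)
    omega
  have hsep := fun z (hz : z ∈ zs) => hb zs C.v (2 * d - 5) n₀ C.v_hom C.v_ne hn₁ hrel z hz
  choose! h hh1 hh2 hh3 using hsep
  have hmem : ∀ z ∈ zs, h z * p ∈ Qn F C.u n := by
    intro z hz
    refine hc d F zs P C n z hd hF hz (n₀ + i) (h z * p) ((hh1 z hz).mul hpi) ?_ ?_
    · have : (k + 1) * d = k * d + d := by ring
      omega
    · intro f m hf hfz
      rw [← mul_assoc]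
      refine ha d F zs P C n p hd hF hs hl (f * h z) (m + n₀) (hf.mul (hh1 z hz)) fun w hw => ?_
      rw [map_mul]
      by_cases hwz : w = z
      · rw [hwz, hfz, zero_mul]
      · rw [hh3 z hz w hw hwz, mul_zero]
  have h0 := ha d F zs P C n p hd hF hs hl
    (C.v ^ n₀ - ∑ z ∈ zs, MvPolynomial.C (eval z C.v ^ n₀) * h z) n₀ ?_ ?_
  · have h1 : C.v ^ n₀ * p ∈ Qn F C.u n := by
      have h2 : C.v ^ n₀ * p = (C.v ^ n₀ - ∑ z ∈ zs, MvPolynomial.C (eval z C.v ^ n₀) * h z) * p +
          ∑ z ∈ zs, MvPolynomial.C (eval z C.v ^ n₀) * (h z * p) := by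
        rw [sub_mul, Finset.sum_mul]
        have : ∀ z ∈ zs, MvPolynomial.C (eval z C.v ^ n₀) * h z * p =
            MvPolynomial.C (eval z C.v ^ n₀) * (h z * p) := fun z _ => mul_assoc _ _ _
        rw [Finset.sum_congr rfl this]
        ring
      rw [h2]
      exact Ideal.add_mem _ h0 (Ideal.sum_mem _ fun z hz => Ideal.mul_mem_left _ _ (hmem z hz))
    exact RA_nzd hp C.reg n n₀ _ h1
  · refine IsHomogeneous.sub ?_ (IsHomogeneous.sum _ _ _ fun z hz => ?_)
    · have := C.v_hom.pow n₀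
      rwa [one_mul] at this
    · have := (isHomogeneous_C (Fin 5) (eval z C.v ^ n₀)).mul (hh1 z hz)
      rwa [zero_add] at this
  · intro w hw
    rw [map_sub, map_pow, map_sum, Finset.sum_eq_single w]
    · rw [map_mul, eval_C, hh2 w hw, mul_one, sub_self]
    · intro z hz hzw
      rw [map_mul, hh3 z hz w hw (Ne.symm hzw), mul_zero]
    · intro h
      exact absurd hw h

end Pool.Agent.NOD.S2
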