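import Pool.Agent.NOD.Defs

/-!
# Project NOD (MP_c2352a_ag, S00427), section S2 (helper85): the obstruction classes vanish

Statements (NOT results) of the pieces of section S2 of `nod_proof.md`, with proofs. File of the
piece `XXX`: `Pool/Agent/NOD/S2/XXX.lean`, namespace `Pool.Agent.NOD.S2`, theorem
`t_XXX : S_XXX`; other pieces are hypotheses as said in the docstring. The basic algebra of `Loc`,
`FLoc`, `HomK`, `PReg` is in `Pool/Agent/NOD/LocB.lean` (helper85).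
`ι = algebraMap A K`.
-/

set_option autoImplicit false

namespace Pool.Agent.NOD.S2

open MvPolynomial Pool.Agent.NOD

/-- Sums of elements regular on the double intersections and of `F ^ k` times an element
regular on the triple intersection. -/
def WS (F : A) (u : Fin 3 → A) (k : ℕ) : Set K :=
  {x | ∃ y01 ∈ Loc (u 0 * u 1), ∃ y12 ∈ Loc (u 1 * u 2), ∃ y20 ∈ Loc (u 2 * u 0),
    ∃ w ∈ FLoc (F ^ k) (u 0 * u 1 * u 2), x = y01 + y12 + y20 + w}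

/-- The ideal `(F, u 0 ^ n, u 1 ^ n, u 2 ^ n)`. -/
noncomputable def Qn (F : A) (u : Fin 3 → A) (n : ℕ) : Ideal A := Ideal.span {F, u 0 ^ n, u 1 ^ n, u 2 ^ n}

/-- Piece CH2 (70 lines). `t_CH2 (hp : S_POW) : S_CH2`. The Čech `H ^ 1` of the three open sets modulo
`F ^ j` is zero.

Proof. Write `y01 = p / (u0 u1) ^ n`, `y12 = q / (u1 u2) ^ n`, `y20 = r / (u2 u0) ^ n` with one `n` which also
serves for the element of `FLoc`. Multiplying the hypothesis by `(u0 u1 u2) ^ n`: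
`u2 ^ n p + u0 ^ n q + u1 ^ n r ∈ (F ^ j)` (the element of `FLoc` is `F ^ j w`, `(u0 u1 u2) ^ n w ∈ A`). By `hp`,
`![F ^ j, u0 ^ n, u1 ^ n, u2 ^ n]` is `PReg`. So `p = a u0 ^ n + b u1 ^ n + F ^ j c` (`u2 ^ n` is a nonzerodivisor
modulo `(F ^ j, u0 ^ n, u1 ^ n)`). Then `u0 ^ n (q + a u2 ^ n) + u1 ^ n (r + b u2 ^ n) ∈ (F ^ j)`, so
`q + a u2 ^ n = e u1 ^ n + F ^ j c'`, and `u1 ^ n (u0 ^ n e + r + b u2 ^ n) ∈ (F ^ j)`, so `r = - b u2 ^ n - e u0 ^ n`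
modulo `F ^ j`. Put `z 0 = b / u0 ^ n`, `z 1 = - a / u1 ^ n`, `z 2 = - e / u2 ^ n`. -/
def S_CH2 : Prop := ∀ (F : A) (u : Fin 3 → A) (j : ℕ), F ≠ 0 → (∀ i, u i ≠ 0) →
  PReg ![F, u 0, u 1, u 2] → ∀ y01 ∈ Loc (u 0 * u 1), ∀ y12 ∈ Loc (u 1 * u 2),
  ∀ y20 ∈ Loc (u 2 * u 0), y01 + y12 + y20 ∈ FLoc (F ^ j) (u 0 * u 1 * u 2) →
  ∃ z : Fin 3 → K, (∀ i, z i ∈ Loc (u i)) ∧ y01 - (z 0 - z 1) ∈ FLoc (F ^ j) (u 0 * u 1) ∧
    y12 - (z 1 - z 2) ∈ FLoc (F ^ j) (u 1 * u 2) ∧ y20 - (z 2 - z 0) ∈ FLoc (F ^ j) (u 2 * u 0)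

/-- Piece CH2H (100 lines). `t_CH2H (hp : S_POW) : S_CH2H`. The homogeneous version (used in section S3).

Proof. As CH2. The polynomials `p, q, r` are homogeneous of degrees `t + n (del 0 + del 1)` and so on (or zero; for a
negative number they are zero); take the homogeneous components of `a, b, e` of the right degree
(`t + n del i`, zero if this is negative), which satisfy the same congruences modulo the homogeneous
polynomial `F ^ j`. -/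
def S_CH2H : Prop := ∀ (F : A) (u : Fin 3 → A) (d : ℕ) (del : Fin 3 → ℕ) (j : ℕ) (t : ℤ), F ≠ 0 →
  (∀ i, u i ≠ 0) → F.IsHomogeneous d → (∀ i, (u i).IsHomogeneous (del i)) →
  PReg ![F, u 0, u 1, u 2] → ∀ y01 ∈ Loc (u 0 * u 1), ∀ y12 ∈ Loc (u 1 * u 2),
  ∀ y20 ∈ Loc (u 2 * u 0), HomK t y01 → HomK t y12 → HomK t y20 →
  y01 + y12 + y20 ∈ FLoc (F ^ j) (u 0 * u 1 * u 2) →
  ∃ z : Fin 3 → K, (∀ i, z i ∈ Loc (u i)) ∧ (∀ i, HomK t (z i)) ∧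
    y01 - (z 0 - z 1) ∈ FLoc (F ^ j) (u 0 * u 1) ∧
    y12 - (z 1 - z 2) ∈ FLoc (F ^ j) (u 1 * u 2) ∧ y20 - (z 2 - z 0) ∈ FLoc (F ^ j) (u 2 * u 0)

/-- Piece DIV (40 lines). `t_DIV (h : S_CH2) : S_DIV`.

Proof. `F ^ k x = y01 + y12 + y20 + F ^ (k + 1) w`, so `y01 + y12 + y20 = F ^ k (x - F w)` is in
`FLoc (F ^ k) (u0 u1 u2)`. By CH2 (with `j = k`), `y01 = z 0 - z 1 + F ^ k w01` and so on; the sum is
`F ^ k (w01 + w12 + w20)`. Divide by `F ^ k`: `x = w01 + w12 + w20 + F w`. -/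
def S_DIV : Prop := ∀ (F : A) (u : Fin 3 → A) (k : ℕ), F ≠ 0 → (∀ i, u i ≠ 0) →
  PReg ![F, u 0, u 1, u 2] → ∀ x ∈ Loc (u 0 * u 1 * u 2),
  algebraMap A K F ^ k * x ∈ WS F u (k + 1) → x ∈ WS F u 1

/-- Piece DER (60 lines). `t_DER : S_DER`. The partial derivatives extend to the fraction field.

Proof. Define `D (p / q) = (∂p q - p ∂q) / q ^ 2` (for `x : K` choose `p, q` by `IsLocalization.mk'_surjective` or
`IsFractionRing.div_surjective`; it does not depend on the choice: `p q' = p' q` implies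
`(∂p q - p ∂q) q' ^ 2 = (∂p' q' - p' ∂q') q ^ 2`), or use a derivation of a localization from Mathlib. If
`s ^ n x = p` then `s ^ (n + 1) D x = s D (s ^ n x) - s D(s ^ n) x = s ∂p - n ∂s (s ^ n x)`, which is in `A`. -/
def S_DER : Prop := ∀ l : Fin 5, ∃ D : K → K, (∀ x y, D (x + y) = D x + D y) ∧
  (∀ x y, D (x * y) = D x * y + x * D y) ∧
  (∀ p : A, D (algebraMap A K p) = algebraMap A K (pderiv l p)) ∧
  ∀ s : A, ∀ x ∈ Loc s, D x ∈ Loc s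

/-- Piece QW (60 lines). `t_QW (hp : S_POW) : S_QW`.

Proof. `x = y01 + y12 + y20 + F w`. Multiply by `(u0 u1 u2) ^ N`, `N ≥ n` large:
`(u0 u1 u2) ^ (N - n) p = u2 ^ N p01 + u0 ^ N p12 + u1 ^ N p20 + F q ∈ (F, u0 ^ N, u1 ^ N, u2 ^ N)`. Now cancel: if
`u0 ^ a y ∈ (F, u0 ^ (a + n), I)` then `u0 ^ a (y - u0 ^ n z) ∈ (F, I)` and `u0 ^ a` is a nonzerodivisor modulo
`(F, I)`, `I = (u1 ^ N, u2 ^ N)`, so `y ∈ (F, u0 ^ n, I)`; then the same for `u1`, `u2` (by `hp` the sequence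
`![F, u0 ^ a, u1 ^ b, u2 ^ c]` is `PReg` for all exponents). -/
def S_QW : Prop := ∀ (F : A) (u : Fin 3 → A) (n : ℕ) (p : A) (x : K), (∀ i, u i ≠ 0) →
  PReg ![F, u 0, u 1, u 2] → algebraMap A K (u 0 * u 1 * u 2) ^ n * x = algebraMap A K p →
  x ∈ WS F u 1 → p ∈ Qn F u n

/-- Piece OBS (100 lines). `t_OBS (hd : S_DIV) (hD : S_DER) : S_OBS`. Here `c' a 2 0` is the obstruction class.

Proof. Write `k = k' + 1`, `D` from DER. All congruences are modulo `F ^ k T`, `T = Loc (u0 u1 u2)`, a subring. Apply `D` to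
`a01 a12 = a02 + F ^ k c'`: `D(a01) a12 + a01 D(a12) = D(a02) + k F ^ k' D(F) c' + F ^ k D(c')`. Multiply by `a20`.
As `a01 a12 a20 ≡ a02 a20 ≡ 1`, `a01 a10 ≡ 1`, `a12 a21 ≡ 1` (cocycle conditions of level `k`), one has
`a12 a20 ≡ a10` and `a01 a20 ≡ a21`. So `k F ^ k' D(F) c' a20 ≡ D(a01) a10 + D(a12) a21 - D(a02) a20`; so
`F ^ k' (D(F) c' a20) ∈ WS F u (k' + 1)` (divide by the number `k`). Apply DIV; `D(F) = pderiv l F`. -/
def S_OBS : Prop := ∀ (F : A) (zs : Finset (Fin 5 → ℂ)) (P : Ideal A) (C : Chart F zs P) (k : ℕ)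
  (a : Fin 3 → Fin 3 → K), F ≠ 0 → (∀ i, C.u i ≠ 0) → 1 ≤ k → Sys F C k a →
  ∀ c ∈ Loc (C.u 0 * C.u 1 * C.u 2), a 0 1 * a 1 2 - a 0 2 = algebraMap A K (F ^ k) * c →
  ∀ l : Fin 5, algebraMap A K (pderiv l F) * (c * a 2 0) ∈ WS F C.u 1

/-- Piece RA (50 lines). `t_RA (hp : S_POW) (hj : S_JSAT) : S_RA`. First step of LEMMA R.

Proof. By JSAT `v ^ r f ∈ J`, so `v ^ r f p ∈ Q = (F, u0 ^ n, u1 ^ n, u2 ^ n)` and `v ^ r` is a nonzerodivisor modulo `Q`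
by `hp` for `C.reg` with exponents `1, n, n, n, r`. -/
def S_RA : Prop := ∀ (d : ℕ) (F : A) (zs : Finset (Fin 5 → ℂ)) (P : Ideal A) (C : Chart F zs P)
  (n : ℕ) (p : A), 3 ≤ d → F.IsHomogeneous d → Sing F zs →
  (∀ l : Fin 5, pderiv l F * p ∈ Qn F C.u n) →
  ∀ (f : A) (m : ℕ), f.IsHomogeneous m → (∀ z ∈ zs, eval z f = 0) → f * p ∈ Qn F C.u n

/-- Piece RB (70 lines). `t_RB : S_RB`. Separating forms of large degree.

Proof. A relation `c` of degree `n₀` gives the relation `z ↦ c z * eval z v ^ (n₀ - n₁)` of degree `n₁`, so there is none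
in degree `n₀`. The linear map (forms of degree `n₀`) → (functions on `zs`) is surjective: otherwise there is
a nonzero linear functional on `zs → ℂ` which vanishes on its range (Mathlib: `Submodule.exists_le_ker_of_lt_top` or
`Submodule.exists_dual_map_eq_bot_of_lt_top`), i.e. a relation. -/
def S_RB : Prop := ∀ (zs : Finset (Fin 5 → ℂ)) (v : A) (n₁ n₀ : ℕ), v.IsHomogeneous 1 →
  (∀ z ∈ zs, eval z v ≠ 0) → n₁ ≤ n₀ → ¬ Rel zs n₁ → ∀ z ∈ zs, ∃ h : A, h.IsHomogeneous n₀ ∧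
    eval z h = 1 ∧ ∀ w ∈ zs, w ≠ z → eval w h = 0

/-- Piece RC (100 lines). `t_RC (hp : S_POW) (hs : S_SOC) : S_RC`. The socle argument.

Proof. Induction on `i`. If `n = 0` everything is in `Qn`. The ideal `Q + (v)` is spanned by the PReg sequence
`F, u0 ^ n, u1 ^ n, u2 ^ n, v` (by `hp`) of degrees `d, n del 0, n del 1, n del 2, 1`, so by SOC a form `g` with
`X l * g ∈ Q + (v)` for all `l`, not in `Q + (v)`, has degree `(d - 1) + ∑ (n del j - 1) = n S + d - 4 > i`. Now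
`X l - (z l / v(z)) v` is a linear form vanishing at `z`, so `X l * g ∈ Q + (v)`. Hence `g = v g' + q`, `q ∈ Q`, and we may
take `g'` homogeneous of degree `i - 1` (homogeneous components; `Q` is a homogeneous ideal; for `i = 0` the ideal
`Q + (v)` contains no nonzero constant, so `g = 0`). For a form `f` vanishing at `z`: `f g = v f g' + f q`, so
`v f g' ∈ Q`, so `f g' ∈ Q` (`v` is a nonzerodivisor modulo `Q`). By induction `g' ∈ Q`. -/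
def S_RC : Prop := ∀ (d : ℕ) (F : A) (zs : Finset (Fin 5 → ℂ)) (P : Ideal A) (C : Chart F zs P)
  (n : ℕ) (z : Fin 5 → ℂ), 3 ≤ d → F.IsHomogeneous d → z ∈ zs → ∀ (i : ℕ) (g : A),
  g.IsHomogeneous i → i + 5 ≤ n * ∑ j, C.del j + d →
  (∀ (f : A) (m : ℕ), f.IsHomogeneous m → eval z f = 0 → f * g ∈ Qn F C.u n) → g ∈ Qn F C.u n

/-- Piece RR (60 lines). `t_RR (hp : S_POW) (ha : S_RA) (hb : S_RB) (hc : S_RC) : S_RR`. LEMMA R.

Proof. `n₀ := (k + 1) d - 5 ≥ 2 d - 5`, `h_z` from RB. For `z ∈ zs` put `g = h_z p`, homogeneous of degree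
`n₀ + n S - k d = n S + d - 5`. If a form `f` vanishes at `z` then `f h_z` vanishes on `zs`, so `f g ∈ Q` by RA; so
`h_z p ∈ Q` by RC. The form `v ^ n₀ - ∑_z v(z) ^ n₀ h_z` of degree `n₀` vanishes on `zs`, so by RA
`v ^ n₀ p ∈ Q`, and `v ^ n₀` is a nonzerodivisor modulo `Q`. -/
def S_RR : Prop := ∀ (d : ℕ) (F : A) (zs : Finset (Fin 5 → ℂ)) (P : Ideal A) (C : Chart F zs P)
  (k n i : ℕ) (p : A), 3 ≤ d → F.IsHomogeneous d → Sing F zs → ¬ Rel zs (2 * d - 5) → 1 ≤ k →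
  p.IsHomogeneous i → i + k * d = n * ∑ j, C.del j →
  (∀ l : Fin 5, pderiv l F * p ∈ Qn F C.u n) → p ∈ Qn F C.u n

/-- Piece HOM (70 lines). `t_HOM : S_HOM`. Homogeneous decomposition.

Proof. `p = F q + u0 ^ n b0 + u1 ^ n b1 + u2 ^ n b2`; take the components: `q` homogeneous of degree `i - d`
(zero if `i < d`), `b_j` homogeneous of degree `i - n del j` (or zero). Divide by `(u0 u1 u2) ^ n`:
`y12 = b0 / (u1 u2) ^ n`, `y20 = b1 / (u2 u0) ^ n`, `y01 = b2 / (u0 u1) ^ n`, `w = q / (u0 u1 u2) ^ n`. -/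
def S_HOM : Prop := ∀ (F : A) (u : Fin 3 → A) (d : ℕ) (del : Fin 3 → ℕ) (n i : ℕ) (t : ℤ) (p : A)
  (c : K), (∀ j, u j ≠ 0) → F.IsHomogeneous d → (∀ j, (u j).IsHomogeneous (del j)) →
  p.IsHomogeneous i → (i : ℤ) = t + n * ∑ j, (del j : ℤ) →
  algebraMap A K (u 0 * u 1 * u 2) ^ n * c = algebraMap A K p → p ∈ Qn F u n →
  ∃ y01 ∈ Loc (u 0 * u 1), ∃ y12 ∈ Loc (u 1 * u 2), ∃ y20 ∈ Loc (u 2 * u 0),
    ∃ w ∈ Loc (u 0 * u 1 * u 2), HomK t y01 ∧ HomK t y12 ∧ HomK t y20 ∧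
      c = y01 + y12 + y20 + algebraMap A K F * w

/-- Piece EXT (100 lines). `t_EXT : S_EXT`. Three entries determine the system of the next level.

Proof. Put `a' i i = 1`, `a' 0 1 = b01`, `a' 1 2 = b12`, `a' 0 2 = b02` and
`a' 1 0 = a10 (2 - b01 a10)`, `a' 2 1 = a21 (2 - b12 a21)`, `a' 2 0 = a20 (2 - b02 a20)`. Since
`b01 a10 ≡ a01 a10 ≡ 1` modulo `F ^ k Loc (u0 u1)`, `b01 a10 = 1 + ε`, `b01 a' 1 0 = (1 + ε) (1 - ε) = 1 - ε ^ 2`, `ε ^ 2` in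
`F ^ (2 k) Loc ⊆ F ^ (k + 1) Loc`; and `a' 1 0 - a10 = a10 (1 - b01 a10) ∈ F ^ k Loc (u0 u1)`; it is homogeneous of
the right degree. The condition `gen` follows from `a' i j - a i j ∈ F Loc`. The condition `coc` (27 cases): for
`i = j` or `j = l` trivial; for `i = l ≠ j` the inverses just checked; for three different indices multiply
`b01 b12 ≡ b02` by inverses, in the ring `Loc (u0 u1 u2)`, modulo `F ^ (k + 1)`. -/
def S_EXT : Prop := ∀ (F : A) (zs : Finset (Fin 5 → ℂ)) (P : Ideal A) (C : Chart F zs P) (k : ℕ)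
  (a : Fin 3 → Fin 3 → K), F ≠ 0 → (∀ i, C.u i ≠ 0) → 1 ≤ k → Sys F C k a → ∀ b01 b12 b02 : K,
  b01 - a 0 1 ∈ FLoc (F ^ k) (C.u 0 * C.u 1) → b12 - a 1 2 ∈ FLoc (F ^ k) (C.u 1 * C.u 2) →
  b02 - a 0 2 ∈ FLoc (F ^ k) (C.u 0 * C.u 2) → HomK ((C.gam 1 : ℤ) - C.gam 0) b01 →
  HomK ((C.gam 2 : ℤ) - C.gam 1) b12 → HomK ((C.gam 2 : ℤ) - C.gam 0) b02 →
  b01 * b12 - b02 ∈ FLoc (F ^ (k + 1)) (C.u 0 * C.u 1 * C.u 2) →
  ∃ a' : Fin 3 → Fin 3 → K, Sys F C (k + 1) a' ∧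
    ∀ i j, a' i j - a i j ∈ FLoc (F ^ k) (C.u i * C.u j)

/-- Piece COR (70 lines). `t_COR (he : S_EXT) : S_COR`. If the obstruction class is zero one can go on.

Proof. `b01 = a01 (1 - F ^ k y01)`, `b12 = a12 (1 - F ^ k y12)`, `b02 = a02 (1 + F ^ k y20)`. Modulo `F ^ (k + 1) T`
(`2 k ≥ k + 1`): `b01 b12 ≡ a01 a12 (1 - F ^ k (y01 + y12)) ≡ a02 + F ^ k c - F ^ k a02 (y01 + y12)`, so
`b01 b12 - b02 ≡ F ^ k (c - a02 (y01 + y12 + y20)) = F ^ k (c - a02 (c a20 - F w)) ≡ F ^ k c (1 - a02 a20) ≡ 0`. -/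
def S_COR : Prop := ∀ (d : ℕ) (F : A) (zs : Finset (Fin 5 → ℂ)) (P : Ideal A) (C : Chart F zs P)
  (k : ℕ) (a : Fin 3 → Fin 3 → K), F.IsHomogeneous d → F ≠ 0 → (∀ i, C.u i ≠ 0) → 1 ≤ k →
  Sys F C k a → ∀ c ∈ Loc (C.u 0 * C.u 1 * C.u 2),
  a 0 1 * a 1 2 - a 0 2 = algebraMap A K (F ^ k) * c →
  ∀ y01 ∈ Loc (C.u 0 * C.u 1), ∀ y12 ∈ Loc (C.u 1 * C.u 2), ∀ y20 ∈ Loc (C.u 2 * C.u 0),
  ∀ w ∈ Loc (C.u 0 * C.u 1 * C.u 2), HomK (-((k * d : ℕ) : ℤ)) y01 →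
  HomK (-((k * d : ℕ) : ℤ)) y12 → HomK (-((k * d : ℕ) : ℤ)) y20 →
  c * a 2 0 = y01 + y12 + y20 + algebraMap A K F * w →
  ∃ a' : Fin 3 → Fin 3 → K, Sys F C (k + 1) a' ∧
    ∀ i j, a' i j - a i j ∈ FLoc (F ^ k) (C.u i * C.u j)

/-- Piece STEP (80 lines). `t_STEP (hr : S_RR) (ho : S_OBS) (hq : S_QW) (hh : S_HOM) (hc : S_COR) : S_STEP`.

Proof. By `coc` for `(0, 1, 2)`, `a01 a12 - a02 = F ^ k c`, `c ∈ T` homogeneous of degree `gam 2 - gam 0 - k d`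
(`F ≠ 0`). `c₁ = c a20` is homogeneous of degree `- k d` (if `c₁ = 0`, apply COR with zeros). Write
`(u0 u1 u2) ^ n c₁ = p`, `p` homogeneous of degree `n S - k d`. By OBS and QW, applied to `pderiv l F * p`,
`pderiv l F * p ∈ Qn`. By RR `p ∈ Qn`. HOM and COR. -/
def S_STEP : Prop := ∀ (d : ℕ) (F : A) (zs : Finset (Fin 5 → ℂ)) (P : Ideal A) (C : Chart F zs P)
  (k : ℕ) (a : Fin 3 → Fin 3 → K), 3 ≤ d → F.IsHomogeneous d → Sing F zs →
  ¬ Rel zs (2 * d - 5) → F ≠ 0 → (∀ i, C.u i ≠ 0) → 1 ≤ k → Sys F C k a →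
  ∃ a' : Fin 3 → Fin 3 → K, Sys F C (k + 1) a' ∧
    ∀ i j, a' i j - a i j ∈ FLoc (F ^ k) (C.u i * C.u j)

/-- Piece LEV (90 lines). `t_LEV : S_LEV`. The system of level one.

Proof. `g j ∈ P`, so `u i * g j = b F + α g i` by `C.loc`; take `α` homogeneous of degree `del i + gam j - gam i` (zero if
this is negative). Put `a i j = α / u i` for `i ≠ j`, `a i i = 1`. Then `g i a i j - g j = - b F / u i`. Cocycle: with
`x = a i j a j l - a i l`, `g i x = (g i a i j - g j) a j l + (g j a j l - g l) - (g i a i l - g l) ∈ F Loc (u i u j u l)`; if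
`s x = y` polynomial (`s` a power of `u i u j u l`), then `F` divides `s' g i y` for a power `s'`; `F` is prime, does not divide
`u i, u j, u l` (`F ∈ P`, `u i ∉ P`) and not `g i` (otherwise `u i p ∈ (F)` for all `p ∈ P`, so `P = (F)`, which has height at
most one: `Ideal.height_le_one_of_isPrincipal_of_mem_minimalPrimes` or so). So `F ∣ y`. -/
def S_LEV : Prop := ∀ (d : ℕ) (F : A) (zs : Finset (Fin 5 → ℂ)) (P : Ideal A) (C : Chart F zs P),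
  F.IsHomogeneous d → Prime F → P.IsPrime → F ∈ P → P.height = 2 →
  ∃ a : Fin 3 → Fin 3 → K, Sys F C 1 a

/-- Piece FIN (30 lines, helper85). `t_FIN (hi : S_IRR) (hs : S_STEP) (hl : S_LEV) : S_SYS`. -/
def S_FIN : Prop := S_SYS

end Pool.Agent.NOD.S2
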